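import Pool.Agent.Q292.MBP.Priv

/-! Percolation in two steps above the threshold. -/

set_option autoImplicit false

namespace Q292.MBP

open Finset H974

variable {n k : ℕ}

open Classical in
/-- The vertices of `W` which are healthy and whose non-private neighbourhood is not too thin. -/
noncomputable def G (k : ℕ) (v : Q n) (p l : ℝ) (A : Finset (Q n)) : Finset (Q n) :=
  (W k v).filter (fun w => w ∉ A ∧ p * (Z k v w).card < ((Z k v w ∩ A).card : ℝ) + l)

theorem G_sub (k : ℕ) (v : Q n) (p l : ℝ) (A : Finset (Q n)) : G k v p l A ⊆ W k v :=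
  filter_subset _ _

theorem G_dep (hk : 1 ≤ k) (v : Q n) (p l : ℝ) (A : Finset (Q n)) :
    G k v p l A = G k v p l (A ∩ (univ \ P k v)) := by
  unfold G
  apply filter_congr
  intro w hw
  have h1 : w ∉ A ∩ (univ \ P k v) ↔ w ∉ A := by
    rw [mem_inter, mem_sdiff]
    have := W_not_P hk hw
    have := mem_univ w
    tauto
  have h2 : Z k v w ∩ (A ∩ (univ \ P k v)) = Z k v w ∩ A := by
    ext x
    simp only [mem_inter, mem_sdiff]
    have := @Z_not_P n k v w x hw
    have := mem_univ x
    tauto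
  rw [h1, h2]

/-- The failure probability at one vertex. -/
theorem one_vertex {p l g q : ℝ} (hk : 1 ≤ k) (hp0 : 1 / 4 ≤ p) (hp1 : p ≤ 1 / 2) (v : Q n)
    (hl0 : 0 ≤ l) (hg0 : 0 ≤ g)
    (hl : 16 * (16 ^ k * ((n : ℝ) + 1) ^ k) ≤ l ^ 2)
    (hm : 0 < ((n / 2).choose k : ℝ))
    (hM : 0 < ((n - n / 2).choose k : ℝ))
    (hq : q = 1 / 2 * Real.exp (-(36 * ((1 / 2 - p) * deg k n + l) ^ 2 /
      ((n - n / 2).choose k : ℝ))))
    (hs : 4 * ((n - n / 2).choose k : ℝ) ≤ ((1 / 2 - p) * deg k n + l) ^ 2)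
    (hsM : 16 * ((1 / 2 - p) * deg k n + l) ≤ ((n - n / 2).choose k : ℝ))
    (hg : g + (1 / 2 - p) * deg k n ≤ q * ((n / 2).choose k : ℝ) / 32) :
    Pr (fun _ : Q n => p) univ
      (fun A => ¬ ((deg k n : ℝ) / 2 ≤ ((Nb k v ∩ step k ((deg k n : ℝ) / 2) A).card : ℝ))) ≤
      Real.exp (-(g ^ 2 / (4 * (16 ^ k * ((n : ℝ) + 1) ^ k)))) +
      (Real.exp (-(((n / 2).choose k : ℝ) / 128)) +
      (Real.exp (-(((n / 2).choose k : ℝ) / 4)) +
      Real.exp (-(q * ((n / 2).choose k : ℝ) / 32)))) := by
  classical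
  set N : ℝ := (deg k n : ℝ) with hN
  set m : ℝ := ((n / 2).choose k : ℝ) with hmdef
  set M : ℝ := ((n - n / 2).choose k : ℝ) with hMdef
  set s : ℝ := (1 / 2 - p) * N + l with hsdef
  have hp0' : 0 ≤ p := by linarith
  have hp1' : p ≤ 1 := by linarith
  have hOk := Ok_const (E := Q n) hp0' hp1'
  have hWc : ((W k v).card : ℝ) = m := by rw [card_W]
  have hN0 : 0 ≤ N := by positivity
  have hq0 : 0 ≤ q := by rw [hq]; positivity
  have hs0 : 0 ≤ s := by
    have : 0 ≤ (1 / 2 - p) * N := mul_nonneg (by linarith) hN0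
    linarith
  set m' : ℕ := ⌈m / 4⌉₊ with hm'
  have hm'1 : m / 4 ≤ m' := Nat.le_ceil _
  -- the four bad events
  set F1 : Finset (Q n) → Prop := fun A =>
    ∀ w ∈ ({v} : Finset (Q n)), ((Nb k w ∩ A).card : ℝ) + g ≤ p * (Nb k w).card with hF1
  set F2 : Finset (Q n) → Prop := fun A => 5 / 8 * m ≤ ((W k v ∩ A).card : ℝ) with hF2
  set F3 : Finset (Q n) → Prop := fun A => ∃ S ∈ powersetCard m' (W k v),
    ∀ w ∈ S, ((Z k v w ∩ A).card : ℝ) + l ≤ p * (Z k v w).card with hF3
  set F4 : Finset (Q n) → Prop := fun A => m / 8 ≤ ((G k v p l A).card : ℝ) ∧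
    ∑ w ∈ G k v p l A, ind (p * M + s ≤ ((A ∩ T k v w).card : ℝ)) < q * m / 32 with hF4
  have hdec : Pr (fun _ : Q n => p) univ
      (fun A => ¬ (N / 2 ≤ ((Nb k v ∩ step k (N / 2) A).card : ℝ))) ≤
      Pr (fun _ : Q n => p) univ (fun A => F1 A ∨ (F2 A ∨ (F3 A ∨ F4 A))) := by
    apply Pr_mono hOk
    intro A _ hA
    by_contra hcon
    push Not at hcon
    obtain ⟨c1, c2, c3, c4⟩ := hcon
    apply hA
    -- F1 fails
    have d1 : p * N < ((Nb k v ∩ A).card : ℝ) + g := by
      by_contra h
      push Not at h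
      apply c1
      intro w hw
      rw [mem_singleton] at hw
      rw [hw, card_Nb]
      exact h
    -- F2 fails
    have d2 : ((W k v ∩ A).card : ℝ) < 5 / 8 * m := by
      by_contra h
      push Not at h
      exact c2 h
    -- F3 fails
    have d3 : (((W k v).filter (fun w => ((Z k v w ∩ A).card : ℝ) + l ≤
        p * (Z k v w).card)).card : ℝ) < m / 4 := by
      by_contra h
      push Not at h
      apply c3
      have h2 : m' ≤ ((W k v).filter (fun w => ((Z k v w ∩ A).card : ℝ) + l ≤
        p * (Z k v w).card)).card := by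
        rw [hm']
        exact Nat.ceil_le.2 h
      obtain ⟨S, hS, hSc⟩ := exists_subset_card_eq h2
      refine ⟨S, mem_powersetCard.2 ⟨hS.trans (filter_subset _ _), hSc⟩, ?_⟩
      intro w hw
      exact (mem_filter.1 (hS hw)).2
    have d4 : m / 8 ≤ ((G k v p l A).card : ℝ) := by
      have hsub : W k v ⊆ (W k v ∩ A) ∪ (((W k v).filter (fun w => ((Z k v w ∩ A).card : ℝ) + l ≤
        p * (Z k v w).card)) ∪ G k v p l A) := by
        intro w hw
        rw [mem_union, mem_union, mem_inter, mem_filter]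
        unfold G
        rw [mem_filter]
        by_cases a1 : w ∈ A
        · exact Or.inl ⟨hw, a1⟩
        · by_cases a2 : ((Z k v w ∩ A).card : ℝ) + l ≤ p * (Z k v w).card
          · exact Or.inr (Or.inl ⟨hw, a2⟩)
          · exact Or.inr (Or.inr ⟨hw, a1, not_le.1 a2⟩)
      have h2 := (card_le_card hsub).trans ((card_union_le _ _).trans
        (Nat.add_le_add_left (card_union_le _ _) _))
      have h3 : ((W k v).card : ℝ) ≤ (W k v ∩ A).card + (((W k v).filter
        (fun w => ((Z k v w ∩ A).card : ℝ) + l ≤ p * (Z k v w).card)).card +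
          (G k v p l A).card) := by exact_mod_cast h2
      rw [hWc] at h3
      linarith
    have d5 : q * m / 32 ≤
        ∑ w ∈ G k v p l A, ind (p * M + s ≤ ((A ∩ T k v w).card : ℝ)) := by
      by_contra h
      push Not at h
      exact c4 ⟨d4, h⟩
    -- the newly infected vertices
    set New : Finset (Q n) := (G k v p l A).filter
      (fun w => p * M + s ≤ ((A ∩ T k v w).card : ℝ)) with hNew
    have d6 : ∑ w ∈ G k v p l A, ind (p * M + s ≤ ((A ∩ T k v w).card : ℝ)) = New.card := by
      rw [hNew, card_filter, Nat.cast_sum]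
      apply sum_congr rfl
      intro w _
      by_cases h : p * M + s ≤ ((A ∩ T k v w).card : ℝ)
      · rw [ind_of h, if_pos h]; simp
      · rw [ind_not_of h, if_neg h]; simp
    have d7 : New ⊆ step k (N / 2) A := by
      intro w hw
      rw [hNew, mem_filter] at hw
      obtain ⟨hwG, hwT⟩ := hw
      unfold G at hwG
      rw [mem_filter] at hwG
      obtain ⟨hwW, _, hwZ⟩ := hwG
      rw [mem_step]
      right
      rw [card_Z_add hk hwW A]
      push_cast
      have e1 : N = (Z k v w).card + M := by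
        rw [hN, hMdef, ← card_T hwW]
        exact_mod_cast card_Z_add' hk hwW
      have e2 : p * N = p * (Z k v w).card + p * M := by rw [e1]; ring
      have e3 : s = (1 / 2 - p) * N + l := hsdef
      nlinarith
    have d8 : Disjoint A New := by
      rw [disjoint_left]
      intro x hx hx'
      rw [hNew, mem_filter] at hx'
      have := hx'.1
      unfold G at this
      rw [mem_filter] at this
      exact this.2.1 hx
    have d9 : (Nb k v ∩ A) ∪ New ⊆ Nb k v ∩ step k (N / 2) A := by
      intro x hx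
      rw [mem_union, mem_inter] at hx
      rw [mem_inter]
      rcases hx with hx | hx
      · exact ⟨hx.1, mem_step.2 (Or.inl hx.2)⟩
      · refine ⟨?_, d7 hx⟩
        rw [hNew, mem_filter] at hx
        exact W_sub hk v (G_sub k v p l A hx.1)
    have d10 := card_le_card d9
    rw [card_union_of_disjoint (disjoint_of_subset_left inter_subset_right d8)] at d10
    have d11 : ((Nb k v ∩ A).card : ℝ) + New.card ≤ (Nb k v ∩ step k (N / 2) A).card := by
      exact_mod_cast d10
    rw [d6] at d5
    nlinarith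
  refine hdec.trans ?_
  refine (Pr_or_le hOk _ _ _).trans (add_le_add ?_ ((Pr_or_le hOk _ _ _).trans
    (add_le_add ?_ ((Pr_or_le hOk _ _ _).trans (add_le_add ?_ ?_)))))
  · -- F1
    have h := dev_low hp0' hp1' hg0 (Z := fun w => Nb k w) (fun w => Subset.refl _) v {v}
      (fun w hw => by rw [mem_singleton] at hw; rw [hw, hammingDist_self]; exact Nat.zero_le k)
    rw [card_singleton, Nat.cast_one, one_mul] at h
    exact h
  · -- F2
    have h := hoeff_up hOk univ (fun x => if x ∈ W k v then (1 : ℝ) else 0) (K := m)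
      (l := m / 8) hm (by
        have : ∑ x : Q n, (if x ∈ W k v then (1 : ℝ) else 0) ^ 2 = m := by
          rw [← hWc, ← sum_filter_add_sum_filter_not univ (fun x => x ∈ W k v)]
          have a1 : ∑ x ∈ univ.filter (fun x => x ∈ W k v),
              (if x ∈ W k v then (1 : ℝ) else 0) ^ 2 = (W k v).card := by
            rw [sum_congr rfl (g := fun _ => (1 : ℝ))]
            · rw [sum_const, nsmul_eq_mul, mul_one]
              congr 2
              ext x; simp
            · intro x hx
              rw [if_pos (mem_filter.1 hx).2]; norm_num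
          have a2 : ∑ x ∈ univ.filter (fun x => ¬ x ∈ W k v),
              (if x ∈ W k v then (1 : ℝ) else 0) ^ 2 = 0 := by
            apply sum_eq_zero
            intro x hx
            rw [if_neg (mem_filter.1 hx).2]; norm_num
          rw [a1, a2, add_zero]
        rw [this]) (by positivity) (A := F2) (by
        intro A _ hA
        rw [hF2] at hA
        have a1 : ∀ B : Finset (Q n), ∑ x ∈ B, (if x ∈ W k v then (1 : ℝ) else 0) =
            ((W k v ∩ B).card : ℝ) := by
          intro B
          rw [← sum_filter, sum_const, nsmul_eq_mul, mul_one]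
          congr 2
          ext x
          rw [mem_filter, mem_inter]; tauto
        rw [a1, ← sum_mul, a1, inter_univ, hWc]
        have hA' : 5 / 8 * m ≤ ((W k v ∩ A).card : ℝ) := hA
        nlinarith)
    refine h.trans (Real.exp_le_exp.2 (le_of_eq ?_))
    field_simp
    ring
  · -- F3
    have h := Pr_exists_card_le hOk (univ : Finset (Q n)) (powersetCard m' (W k v))
      (fun S A => ∀ w ∈ S, ((Z k v w ∩ A).card : ℝ) + l ≤ p * (Z k v w).card)
      (q := Real.exp (-m)) (by
        intro S hS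
        rw [mem_powersetCard] at hS
        have h6 := dev_low hp0' hp1' hl0 (Z := Z k v) (Z_sub k v) v S
          (fun w hw => (mem_Nb.1 (W_sub hk v (hS.1 hw))).2)
        rw [hS.2] at h6
        refine h6.trans (Real.exp_le_exp.2 ?_)
        have h7 : 4 ≤ l ^ 2 / (4 * (16 ^ k * ((n : ℝ) + 1) ^ k)) := by
          rw [le_div_iff₀ (by positivity)]
          linarith
        have h8 : (m' : ℝ) * 4 ≤ m' * (l ^ 2 / (4 * (16 ^ k * ((n : ℝ) + 1) ^ k))) :=
          mul_le_mul_of_nonneg_left h7 (by positivity)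
        linarith)
    refine h.trans ?_
    rw [card_powersetCard, card_W]
    have h9 : (((n / 2).choose k).choose m' : ℝ) ≤ Real.exp (m * (3 / 4)) := by
      have a1 : ((n / 2).choose k).choose m' ≤ 2 ^ ((n / 2).choose k) := Nat.choose_le_two_pow _ _
      have a2 : (((n / 2).choose k).choose m' : ℝ) ≤ (2 : ℝ) ^ ((n / 2).choose k) := by
        exact_mod_cast a1
      refine a2.trans ?_
      rw [hmdef, Real.exp_nat_mul]
      apply pow_le_pow_left₀ (by norm_num)
      have h3 := Real.log_two_lt_d9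
      calc (2 : ℝ) = Real.exp (Real.log 2) := (Real.exp_log (by norm_num)).symm
        _ ≤ _ := Real.exp_le_exp.2 (by linarith)
    calc (((n / 2).choose k).choose m' : ℝ) * Real.exp (-m)
        ≤ Real.exp (m * (3 / 4)) * Real.exp (-m) :=
          mul_le_mul_of_nonneg_right h9 (Real.exp_pos _).le
      _ = Real.exp (-(m / 4)) := by rw [← Real.exp_add]; congr 1; ring
  · -- F4
    have hOP : Disjoint (univ \ P k v) (P k v) := sdiff_disjoint
    have hu : (univ \ P k v) ∪ P k v = univ := sdiff_union_of_subset (subset_univ _)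
    have h := cond_chernoff hOk hOP (W k v) (T k v)
      (fun w hw => by
        unfold P
        exact subset_biUnion_of_mem (T k v) hw)
      (fun w hw w' hw' hne => T_disj hk hw hw' hne)
      (fun w A => p * M + s ≤ ((A ∩ T k v w).card : ℝ))
      (fun w _ A => by rw [inter_assoc, inter_self]) hq0
      (fun w hw => by
        have hTc : ((T k v w).card : ℝ) = M := by rw [card_T hw]
        have h2 := tail_low (T := T k v w) (p := p) (s := s) (by rw [hTc]; exact hM) hp0 hp1 hs0
          (by rw [hTc]; exact hs) (by rw [hTc]; exact hsM)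
        rw [hTc, ← hq] at h2
        refine h2.trans (le_of_eq ?_)
        apply Pr_congr
        intro F hF
        rw [inter_eq_left.2 hF])
      (G k v p l) (fun F _ => G_dep hk v p l F) (fun F => G_sub k v p l F) (m / 8) (q * m / 32)
    rw [hu] at h
    refine h.trans (Real.exp_le_exp.2 (le_of_eq ?_))
    ring

/-- The failure probability. -/
theorem perc_high {p l g q : ℝ} (hk : 1 ≤ k) (hp0 : 1 / 4 ≤ p) (hp1 : p ≤ 1 / 2)
    (hl0 : 0 ≤ l) (hg0 : 0 ≤ g)
    (hl : 16 * (16 ^ k * ((n : ℝ) + 1) ^ k) ≤ l ^ 2)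
    (hm : 0 < ((n / 2).choose k : ℝ))
    (hM : 0 < ((n - n / 2).choose k : ℝ))
    (hq : q = 1 / 2 * Real.exp (-(36 * ((1 / 2 - p) * deg k n + l) ^ 2 /
      ((n - n / 2).choose k : ℝ))))
    (hs : 4 * ((n - n / 2).choose k : ℝ) ≤ ((1 / 2 - p) * deg k n + l) ^ 2)
    (hsM : 16 * ((1 / 2 - p) * deg k n + l) ≤ ((n - n / 2).choose k : ℝ))
    (hg : g + (1 / 2 - p) * deg k n ≤ q * ((n / 2).choose k : ℝ) / 32) :
    1 - prob k n ((deg k n : ℝ) / 2) p ≤ 2 ^ n *
      (Real.exp (-(g ^ 2 / (4 * (16 ^ k * ((n : ℝ) + 1) ^ k)))) +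
      (Real.exp (-(((n / 2).choose k : ℝ) / 128)) +
      (Real.exp (-(((n / 2).choose k : ℝ) / 4)) +
      Real.exp (-(q * ((n / 2).choose k : ℝ) / 32))))) := by
  have hOk := Ok_const (E := Q n) (show (0 : ℝ) ≤ p by linarith) (show p ≤ 1 by linarith)
  rw [prob_eq, ← Pr_not]
  have h1 : Pr (fun _ : Q n => p) univ
      (fun A => ¬ Percolates k ((deg k n : ℝ) / 2) A) ≤
      Pr (fun _ : Q n => p) univ (fun A => ∃ v ∈ (univ : Finset (Q n)),
        ¬ ((deg k n : ℝ) / 2 ≤ ((Nb k v ∩ step k ((deg k n : ℝ) / 2) A).card : ℝ))) := by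
    apply Pr_mono hOk
    intro A _ hA
    by_contra hcon
    push Not at hcon
    exact hA (perc_of_two (fun v => hcon v (mem_univ v)))
  refine h1.trans ?_
  have h2 := Pr_exists_card_le hOk (univ : Finset (Q n)) (univ : Finset (Q n))
    (fun v A => ¬ ((deg k n : ℝ) / 2 ≤ ((Nb k v ∩ step k ((deg k n : ℝ) / 2) A).card : ℝ)))
    (fun v _ => one_vertex hk hp0 hp1 v hl0 hg0 hl hm hM hq hs hsM hg)
  refine h2.trans (le_of_eq ?_)
  have : ((univ : Finset (Q n)).card : ℝ) = 2 ^ n := by simp
  rw [this]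

end Q292.MBP
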