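import Pool.Agent.Q292.MBP.Low
import Pool.Agent.Q292.MBP.Up

/-! The asymptotic estimates. -/

set_option autoImplicit false

namespace Q292.MBP

open Finset Filter

theorem aux_K {a b : ℝ} (h1 : 1 ≤ a) (h2 : 0 ≤ b) : 64 ≤ 16 * a * (4 * b + 4) := by nlinarith

theorem aux_sq {a : ℝ} (h : 1 ≤ a) : a ≤ a ^ 2 := by nlinarith

theorem aux_sq2 {a : ℝ} (h : 2 ≤ a) : a + 1 ≤ a ^ 2 := by nlinarith

theorem aux_two {a b : ℝ} (h1 : 1 ≤ a) (h2 : 2 ≤ b) : 2 ≤ a * b := by nlinarith

theorem aux_c {a b : ℝ} (h1 : a ≤ 1) (h2 : 1 ≤ b) : a ≤ 1152 * b := by nlinarith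

theorem aux_two_sq (c t l L : ℝ) :
    (c * t * l + L) ^ 2 ≤ 2 * (c ^ 2 * (t * t) * l ^ 2) + 2 * L ^ 2 := by
  nlinarith [sq_nonneg (c * t * l - L)]

/-- The constant in the lower bound for the binomial coefficients. -/
noncomputable def ak (k : ℕ) : ℝ := 1 / (4 ^ k * (k.factorial : ℝ))

theorem ak_pos (k : ℕ) : 0 < ak k := by
  unfold ak
  have : 0 < (k.factorial : ℝ) := by exact_mod_cast k.factorial_pos
  positivity

theorem ak_le (k : ℕ) : ak k ≤ 1 := by
  unfold ak
  rw [div_le_one (by have : 0 < (k.factorial : ℝ) := by exact_mod_cast k.factorial_pos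
                     positivity)]
  have h1 : (1 : ℝ) ≤ 4 ^ k := one_le_pow₀ (by norm_num)
  have h2 : (1 : ℝ) ≤ (k.factorial : ℝ) := by exact_mod_cast k.factorial_pos
  nlinarith

theorem choose_low {k n : ℕ} (hn : 4 * k ≤ n) : ak k * (n : ℝ) ^ k ≤ ((n / 2).choose k : ℝ) := by
  have h := Nat.pow_le_choose (α := ℝ) k (n / 2)
  refine le_trans ?_ h
  unfold ak
  have hf : 0 < (k.factorial : ℝ) := by exact_mod_cast k.factorial_pos
  rw [one_div, mul_inv, mul_assoc, mul_comm (k.factorial : ℝ)⁻¹, ← mul_assoc, ← div_eq_mul_inv]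
  apply div_le_div_of_nonneg_right _ hf.le
  rw [← inv_pow, ← mul_pow]
  apply pow_le_pow_left₀ (by positivity)
  have h1 : n ≤ 4 * (n / 2 + 1 - k) := by omega
  have h2 : (n : ℝ) ≤ 4 * ((n / 2 + 1 - k : ℕ) : ℝ) := by exact_mod_cast h1
  linarith

theorem facts (k : ℕ) (hk : 2 ≤ k) (Y : ℝ) : ∀ᶠ n : ℕ in atTop, ∃ y l : ℝ,
    Y ≤ y ∧ 8 ≤ y ∧ Y ≤ l ∧ 0 ≤ l ∧ l ≤ y ∧ y ^ 8 = n ∧ l ^ 2 = Real.log n ∧
    l = Real.sqrt (Real.log n) ∧
    (n : ℝ) ^ ((k : ℝ) / 2) = y ^ (4 * k) ∧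
    ak k * y ^ (8 * k) ≤ ((n / 2).choose k : ℝ) ∧
    ak k * y ^ (8 * k) ≤ ((n - n / 2).choose k : ℝ) ∧
    ((n - n / 2).choose k : ℝ) ≤ y ^ (8 * k) ∧
    ak k * y ^ (8 * k) ≤ (deg k n : ℝ) ∧ (deg k n : ℝ) ≤ 2 ^ k * y ^ (8 * k) ∧
    ((n : ℝ) + 1) ^ k ≤ 2 ^ k * y ^ (8 * k) ∧ 2 ≤ n := by
  have t1 : Tendsto (fun n : ℕ => (n : ℝ) ^ ((1 : ℝ) / 8)) atTop atTop :=
    (tendsto_rpow_atTop (by norm_num)).comp tendsto_natCast_atTop_atTop
  have t2 : Tendsto (fun n : ℕ => Real.sqrt (Real.log n)) atTop atTop :=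
    Real.tendsto_sqrt_atTop.comp (Real.tendsto_log_atTop.comp tendsto_natCast_atTop_atTop)
  filter_upwards [t1.eventually_ge_atTop Y, t1.eventually_ge_atTop 8,
    t2.eventually_ge_atTop Y, eventually_ge_atTop (4 * k), eventually_ge_atTop 2]
    with n h1 h2 h3 h4 h5
  have hn0 : (0 : ℝ) ≤ n := by positivity
  have hn1 : (1 : ℝ) ≤ n := by exact_mod_cast (by omega : 1 ≤ n)
  have hlog : 0 ≤ Real.log n := Real.log_nonneg hn1
  set y : ℝ := (n : ℝ) ^ ((1 : ℝ) / 8) with hy
  set l : ℝ := Real.sqrt (Real.log n) with hl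
  have hy8 : y ^ 8 = n := by
    rw [hy, ← Real.rpow_natCast, ← Real.rpow_mul hn0]
    norm_num
  have hy8k : y ^ (8 * k) = (n : ℝ) ^ k := by rw [pow_mul, hy8]
  have hl2 : l ^ 2 = Real.log n := Real.sq_sqrt hlog
  have hl0 : 0 ≤ l := Real.sqrt_nonneg _
  have hly : l ≤ y := by
    have h6 := Real.log_le_rpow_div hn0 (show (0 : ℝ) < 1 / 8 by norm_num)
    rw [← hy] at h6
    have h7 : l ^ 2 ≤ y ^ 2 := by
      rw [hl2]
      have : y / (1 / 8) = 8 * y := by ring
      rw [this] at h6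
      nlinarith
    exact le_of_sq_le_sq h7 (by linarith)
  have hc1 : ak k * y ^ (8 * k) ≤ ((n / 2).choose k : ℝ) := by
    rw [hy8k]; exact choose_low h4
  have hc2 : ((n / 2).choose k : ℝ) ≤ ((n - n / 2).choose k : ℝ) := by
    exact_mod_cast Nat.choose_le_choose k (by omega)
  have hc3 : ((n / 2).choose k : ℝ) ≤ (deg k n : ℝ) := by
    have g1 : (n / 2).choose k ≤ n.choose k := Nat.choose_le_choose k (Nat.div_le_self n 2)
    have g2 : n.choose k ≤ deg k n := by
      unfold deg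
      exact single_le_sum (f := fun i => n.choose i) (fun _ _ => Nat.zero_le _)
        (mem_Icc.2 ⟨by omega, le_refl k⟩)
    exact_mod_cast g1.trans g2
  have hc4 : ((n - n / 2).choose k : ℝ) ≤ y ^ (8 * k) := by
    rw [hy8k]
    have g1 : (n - n / 2).choose k ≤ (n - n / 2) ^ k := Nat.choose_le_pow _ _
    have g2 : (n - n / 2) ^ k ≤ n ^ k := Nat.pow_le_pow_left (Nat.sub_le _ _) k
    exact_mod_cast g1.trans g2
  have hc5 : ((n : ℝ) + 1) ^ k ≤ 2 ^ k * y ^ (8 * k) := by
    rw [hy8k, ← mul_pow]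
    apply pow_le_pow_left₀ (by positivity)
    linarith
  have hc6 : (deg k n : ℝ) ≤ 2 ^ k * y ^ (8 * k) := by
    refine le_trans ?_ hc5
    exact_mod_cast deg_le k n
  refine ⟨y, l, h1, h2, h3, hl0, hly, hy8, hl2, rfl, ?_, hc1, hc1.trans hc2, hc4, hc1.trans hc3,
    hc6, hc5, h5⟩
  rw [← Real.rpow_natCast, hy, ← Real.rpow_mul hn0]
  congr 1
  push_cast
  ring

/-- The critical probability is at least a point of non-percolation. -/
theorem le_pc {k n : ℕ} {r p : ℝ} (hp0 : 0 < p) (hp1 : p < 1) (h : prob k n r p ≤ 1 / 2) :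
    p ≤ pc k n r := by
  unfold pc
  apply le_csSup
  · refine ⟨1, ?_⟩
    rintro q ⟨_, hq, _⟩
    exact hq.le
  · exact ⟨hp0, hp1, h⟩

theorem pc_le {k n : ℕ} {r p : ℝ} (hp0 : 0 ≤ p) (h : 1 / 2 < prob k n r p) :
    pc k n r ≤ p := by
  unfold pc
  apply Real.sSup_le _ hp0
  rintro q ⟨_, hq1, hq2⟩
  by_contra hcon
  push Not at hcon
  have := prob_mono (k := k) (n := n) (r := r) hp0 hcon.le hq1.le
  linarith

/-- The lower bound. -/
theorem lower (k : ℕ) (hk : 2 ≤ k) : ∃ C : ℝ, 0 < C ∧ ∀ᶠ n : ℕ in atTop,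
    1 / 2 - C * Real.sqrt (Real.log n) / (n : ℝ) ^ ((k : ℝ) / 2) ≤
      pc k n ((deg k n : ℝ) / 2) := by
  set a := ak k with ha
  have ha0 : 0 < a := ak_pos k
  have ha1 : a ≤ 1 := ak_le k
  set K : ℝ := 16 * 32 ^ k * (4 * k + 4) with hK
  have h32 : (1 : ℝ) ≤ 32 ^ k := one_le_pow₀ (by norm_num)
  have hk0 : (0 : ℝ) ≤ k := by positivity
  have hK1 : 64 ≤ K := by
    rw [hK]
    exact aux_K h32 hk0
  set C : ℝ := K / a with hC
  have hC0 : 0 < C := by positivity
  have hCK : K ≤ C := by rw [hC, le_div_iff₀ ha0]; exact mul_le_of_le_one_right (by linarith) ha1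
  have hCa : C * a = K := by rw [hC]; field_simp
  refine ⟨C, hC0, ?_⟩
  filter_upwards [facts k hk (2 * C + 4)] with n hn
  obtain ⟨y, l, hy, hy8, hl, hl0, hly, hyn, hll, hlsq, hnu, -, -, -, hN1, -, hn1, hn2⟩ := hn
  rw [← hlsq, hnu]
  set ν : ℝ := y ^ (4 * k) with hν
  have hν2 : y ^ (8 * k) = ν ^ 2 := by rw [hν, ← pow_mul]; congr 1; ring
  rw [hν2] at hN1 hn1
  have hy1 : 1 ≤ y := by linarith
  have hνy : y ^ 8 ≤ ν := by rw [hν]; exact pow_le_pow_right₀ hy1 (by omega)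
  have hy2 : y ^ 2 ≤ y ^ 8 := pow_le_pow_right₀ hy1 (by norm_num)
  have hν0 : 0 < ν := by positivity
  set N : ℝ := (deg k n : ℝ) with hN
  have hl4 : 4 ≤ l := by linarith
  -- the density
  have hd : C * l / ν ≤ 1 / 4 := by
    rw [div_le_iff₀ hν0]
    have g1 : C * l ≤ C * y := mul_le_mul_of_nonneg_left hly hC0.le
    have g2 : C * y ≤ y * y := mul_le_mul_of_nonneg_right (by linarith) (by linarith)
    have g3 : y ^ 3 ≤ y ^ 8 := pow_le_pow_right₀ hy1 (by norm_num)
    have g4 : 8 * (y * y) ≤ y ^ 3 := by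
      have : y ^ 3 = y * (y * y) := by ring
      rw [this]
      exact mul_le_mul_of_nonneg_right hy8 (by positivity)
    linarith
  have hd0 : 0 < C * l / ν := by positivity
  apply le_pc (by linarith) (by linarith)
  have hmain := nonperc (k := k) (n := n) (p := 1 / 2 - C * l / ν) (s := C * l / ν * N / 2)
    (by omega) (by linarith) (by linarith) (by rw [← hN]; apply le_of_eq; ring)
    (by
      have h1 : C * l / ν * (a * ν ^ 2) / 2 ≤ C * l / ν * N / 2 := by
        have := mul_le_mul_of_nonneg_left hN1 hd0.le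
        linarith
      have h2 : C * l / ν * (a * ν ^ 2) / 2 = (C * a) * l * ν / 2 := by
        field_simp
      rw [h2, hCa] at h1
      have h3 : 64 * 4 * ν / 2 ≤ K * l * ν / 2 := by
        have h4 : 64 * 4 ≤ K * l := mul_le_mul hK1 hl4 (by norm_num) (by linarith)
        have := mul_le_mul_of_nonneg_right h4 hν0.le
        linarith
      rw [← hyn]
      have h5 : (1 : ℝ) ≤ y ^ 8 := one_le_pow₀ hy1
      linarith)
    (by
      have h1 : K * l * ν / 2 ≤ C * l / ν * N / 2 := by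
        have h1 : C * l / ν * (a * ν ^ 2) / 2 ≤ C * l / ν * N / 2 := by
          have := mul_le_mul_of_nonneg_left hN1 hd0.le
          linarith
        have h2 : C * l / ν * (a * ν ^ 2) / 2 = (C * a) * l * ν / 2 := by
          field_simp
        rwa [h2, hCa] at h1
      have h2 : (K * l * ν / 2) ^ 2 ≤ (C * l / ν * N / 2) ^ 2 :=
        pow_le_pow_left₀ (by positivity) h1 2
      rw [le_div_iff₀ (by positivity)]
      refine le_trans ?_ h2
      have h3 : Real.log ((n : ℝ) + 1) ≤ 2 * Real.log n := by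
        have hn' : (2 : ℝ) ≤ n := by exact_mod_cast hn2
        have h4 : 2 * Real.log n = Real.log ((n : ℝ) ^ 2) := by rw [Real.log_pow]; norm_num
        rw [h4]
        apply Real.log_le_log (by positivity)
        exact aux_sq2 hn'
      rw [← hll] at h3
      have h5 : (16 : ℝ) ^ k * ((n : ℝ) + 1) ^ k ≤ 32 ^ k * ν ^ 2 := by
        have : (32 : ℝ) ^ k = 16 ^ k * 2 ^ k := by rw [← mul_pow]; norm_num
        rw [this, mul_assoc]
        exact mul_le_mul_of_nonneg_left hn1 (by positivity)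
      calc (2 * (k : ℝ) + 2) * Real.log ((n : ℝ) + 1) * (4 * (16 ^ k * ((n : ℝ) + 1) ^ k))
          ≤ (2 * (k : ℝ) + 2) * (2 * l ^ 2) * (4 * (32 ^ k * ν ^ 2)) := by
            apply mul_le_mul
            · exact mul_le_mul_of_nonneg_left h3 (by positivity)
            · linarith
            · positivity
            · positivity
        _ = K * (l ^ 2 * ν ^ 2 / 4) := by rw [hK]; ring
        _ ≤ K ^ 2 * (l ^ 2 * ν ^ 2 / 4) := by
            apply mul_le_mul_of_nonneg_right _ (by positivity)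
            exact aux_sq (by linarith)
        _ = (K * l * ν / 2) ^ 2 := by ring)
  refine hmain.trans ?_
  have h1 : 2 / ((n : ℝ) + 1) ^ (k + 1) ≤ C * l / ν := by
    rw [div_le_div_iff₀ (by positivity) hν0]
    have h2 : ν ≤ ((n : ℝ) + 1) ^ (k + 1) := by
      calc ν ≤ y ^ (8 * k) := by rw [hν]; exact pow_le_pow_right₀ hy1 (by omega)
        _ = (n : ℝ) ^ k := by rw [pow_mul, hyn]
        _ ≤ ((n : ℝ) + 1) ^ k := pow_le_pow_left₀ (by positivity) (by linarith) k
        _ ≤ _ := pow_le_pow_right₀ (by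
            have : (0 : ℝ) ≤ n := by positivity
            linarith) (by omega)
    have h3 : 2 ≤ C * l := aux_two (by linarith) (by linarith)
    have h4 : (0 : ℝ) ≤ ((n : ℝ) + 1) ^ (k + 1) := by positivity
    calc 2 * ν ≤ 2 * ((n : ℝ) + 1) ^ (k + 1) := by linarith
      _ ≤ C * l * ((n : ℝ) + 1) ^ (k + 1) := mul_le_mul_of_nonneg_right h3 h4
  linarith

/-- The upper bound. -/
theorem upper (k : ℕ) (hk : 2 ≤ k) : ∃ c : ℝ, 0 < c ∧ ∀ᶠ n : ℕ in atTop,
    pc k n ((deg k n : ℝ) / 2) ≤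
      1 / 2 - c * Real.sqrt (Real.log n) / (n : ℝ) ^ ((k : ℝ) / 2) := by
  set a := ak k with ha
  have ha0 : 0 < a := ak_pos k
  have ha1 : a ≤ 1 := ak_le k
  have h4k : (1 : ℝ) ≤ 4 ^ k := one_le_pow₀ (by norm_num)
  have h2k : (1 : ℝ) ≤ 2 ^ k := one_le_pow₀ (by norm_num)
  have h32 : (1 : ℝ) ≤ 32 ^ k := one_le_pow₀ (by norm_num)
  set c : ℝ := a / (1152 * 4 ^ k) with hc
  have hc0 : 0 < c := by positivity
  have hc1 : c ≤ 1 := by
    rw [hc, div_le_one (by positivity)]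
    exact aux_c ha1 h4k
  set L : ℝ := 16 * 32 ^ k with hL
  have hL1 : 16 ≤ L := by rw [hL]; linarith
  -- the constant in front of the power in `q`
  set κ : ℝ := 1 / 2 * Real.exp (-(72 * L ^ 2 / a)) with hκ
  have hκ0 : 0 < κ := by positivity
  set Y : ℝ := 64 / a + 16 * (2 ^ k + L) / a + 4 * 2 ^ k + 1 / κ ^ 2 + 16 + 8 * 32 ^ k + 256 / a with hY
  have hi1 : 0 < 64 / a := by positivity
  have hi2 : 0 < 16 * (2 ^ k + L) / a := by positivity
  have hi3 : 0 < 1 / κ ^ 2 := by positivity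
  have hi4 : 0 < 256 / a := by positivity
  refine ⟨c, hc0, ?_⟩
  filter_upwards [facts k hk Y] with n hn
  obtain ⟨y, l, hy, hy8, hl, hl0, hly, hyn, hll, hlsq, hnu, hm1, hM1, hM2, hN1, hN2, hn1, hn2⟩ := hn
  rw [← hlsq, hnu]
  set ν : ℝ := y ^ (4 * k) with hν
  have hν2 : y ^ (8 * k) = ν ^ 2 := by rw [hν, ← pow_mul]; congr 1; ring
  have hy1 : 1 ≤ y := by linarith
  have hy0 : 0 < y := by linarith
  have hνy : y ^ 8 ≤ ν := by rw [hν]; exact pow_le_pow_right₀ hy1 (by omega)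
  have hν0 : 0 < ν := by positivity
  have hn0 : (0 : ℝ) ≤ n := by positivity
  set N : ℝ := (deg k n : ℝ) with hN
  set m : ℝ := ((n / 2).choose k : ℝ) with hm
  set M : ℝ := ((n - n / 2).choose k : ℝ) with hM
  have hN0 : 0 ≤ N := by rw [hN]; positivity
  -- bounds on y
  have y1 : 64 / a ≤ y := by rw [hY] at hy; linarith
  have y2 : 16 * (2 ^ k + L) / a ≤ y := by rw [hY] at hy; linarith
  have y3 : 4 * 2 ^ k ≤ y := by rw [hY] at hy; linarith
  have y4 : 1 / κ ^ 2 ≤ y := by rw [hY] at hy; linarith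
  have y5 : 8 * 32 ^ k ≤ y := by rw [hY] at hy; linarith
  have y6 : 256 / a ≤ y := by rw [hY] at hy; linarith
  rw [div_le_iff₀ ha0] at y1 y2 y6
  rw [div_le_iff₀ (by positivity)] at y4
  have hyy : y ^ 2 ≤ ν := le_trans (pow_le_pow_right₀ hy1 (by norm_num)) hνy
  have hd : c * l / ν ≤ 1 / 4 := by
    rw [div_le_iff₀ hν0]
    have g1 : c * l ≤ 1 * y := mul_le_mul hc1 hly hl0 (by norm_num)
    have g2 : 8 * y ≤ y * y := mul_le_mul_of_nonneg_right hy8 hy0.le
    have g3 : y * y = y ^ 2 := by ring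
    linarith
  have hd0 : 0 ≤ c * l / ν := by positivity
  set p : ℝ := 1 / 2 - c * l / ν with hp
  have hpd : 1 / 2 - p = c * l / ν := by rw [hp]; ring
  set s : ℝ := (1 / 2 - p) * N + L * ν with hs
  have hdN : (1 / 2 - p) * N ≤ c * 2 ^ k * l * ν := by
    rw [hpd]
    calc c * l / ν * N ≤ c * l / ν * (2 ^ k * y ^ (8 * k)) := mul_le_mul_of_nonneg_left hN2 hd0
      _ = c * 2 ^ k * l * ν := by rw [hν2]; field_simp
  have hdN0 : 0 ≤ (1 / 2 - p) * N := by rw [hpd]; positivity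
  have hs1 : s ≤ (c * 2 ^ k * l + L) * ν := by
    rw [hs]
    calc (1 / 2 - p) * N + L * ν ≤ c * 2 ^ k * l * ν + L * ν := by linarith
      _ = _ := by ring
  have hs2 : L * ν ≤ s := by rw [hs]; linarith
  have hs0 : 0 ≤ s := by
    have : 0 ≤ L * ν := by positivity
    linarith
  have hM0 : 0 < M := by
    have : 0 < a * y ^ (8 * k) := by positivity
    linarith
  have hm0 : 0 < m := by
    have : 0 < a * y ^ (8 * k) := by positivity
    linarith
  set q : ℝ := 1 / 2 * Real.exp (-(36 * ((1 / 2 - p) * deg k n + L * ν) ^ 2 /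
      ((n - n / 2).choose k : ℝ))) with hq
  -- the bound for q
  have hq1 : 1 / y ≤ q := by
    have e1 : 36 * s ^ 2 / M ≤ 1 / 16 * Real.log n + 72 * L ^ 2 / a := by
      rw [div_le_iff₀ hM0]
      have g1 : s ^ 2 ≤ ((c * 2 ^ k * l + L) * ν) ^ 2 := pow_le_pow_left₀ hs0 hs1 2
      have g2 : (c * 2 ^ k * l + L) ^ 2 ≤ 2 * (c ^ 2 * 4 ^ k * l ^ 2) + 2 * L ^ 2 := by
        have : (4 : ℝ) ^ k = 2 ^ k * 2 ^ k := by rw [← mul_pow]; norm_num
        rw [this]
        exact aux_two_sq _ _ _ _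
      have g3 : 72 * (c ^ 2 * 4 ^ k) ≤ a / 16 := by
        rw [hc]
        have : 72 * ((a / (1152 * 4 ^ k)) ^ 2 * 4 ^ k) = a / 16 * (a / (1152 * 4 ^ k)) := by
          field_simp
          ring
        rw [this]
        have h5 : a / (1152 * 4 ^ k) ≤ 1 := hc1
        have h6 : 0 ≤ a / 16 := by positivity
        exact mul_le_of_le_one_right h6 h5
      have g4 : 36 * (c * 2 ^ k * l + L) ^ 2 ≤ a * (1 / 16 * Real.log n + 72 * L ^ 2 / a) := by
        have : a * (1 / 16 * Real.log n + 72 * L ^ 2 / a) = a / 16 * l ^ 2 + 72 * L ^ 2 := by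
          rw [← hll]; field_simp
        rw [this]
        have h6 : 72 * (c ^ 2 * 4 ^ k) * l ^ 2 ≤ a / 16 * l ^ 2 :=
          mul_le_mul_of_nonneg_right g3 (by positivity)
        linarith
      have g5 : 0 ≤ 1 / 16 * Real.log n + 72 * L ^ 2 / a := by
        rw [← hll]; positivity
      calc 36 * s ^ 2 ≤ 36 * ((c * 2 ^ k * l + L) * ν) ^ 2 := by linarith
        _ = 36 * (c * 2 ^ k * l + L) ^ 2 * ν ^ 2 := by ring
        _ ≤ a * (1 / 16 * Real.log n + 72 * L ^ 2 / a) * ν ^ 2 :=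
            mul_le_mul_of_nonneg_right g4 (by positivity)
        _ = (1 / 16 * Real.log n + 72 * L ^ 2 / a) * (a * ν ^ 2) := by ring
        _ ≤ (1 / 16 * Real.log n + 72 * L ^ 2 / a) * M := by
            apply mul_le_mul_of_nonneg_left _ g5
            rw [← hν2]; exact hM1
    have e2 : κ * Real.exp (-(1 / 16 * Real.log n)) ≤ q := by
      rw [hκ, hq, mul_assoc, ← Real.exp_add]
      apply mul_le_mul_of_nonneg_left _ (by norm_num)
      apply Real.exp_le_exp.2
      linarith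
    refine le_trans ?_ e2
    have e3 : Real.log n = 8 * Real.log y := by
      rw [← hyn, Real.log_pow]; norm_num
    have e4 : Real.exp (-(1 / 16 * Real.log n)) = 1 / Real.exp (Real.log y / 2) := by
      rw [e3, eq_div_iff (Real.exp_pos _).ne', ← Real.exp_add]
      have : -(1 / 16 * (8 * Real.log y)) + Real.log y / 2 = 0 := by ring
      rw [this, Real.exp_zero]
    set z : ℝ := Real.exp (Real.log y / 2) with hz
    have hzy : z ^ 2 = y := by
      rw [hz, ← Real.exp_nat_mul]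
      have : ((2 : ℕ) : ℝ) * (Real.log y / 2) = Real.log y := by push_cast; ring
      rw [this, Real.exp_log hy0]
    have hz0 : 0 < z := Real.exp_pos _
    rw [e4, mul_one_div, div_le_div_iff₀ hy0 hz0, one_mul]
    -- z ≤ κ y = κ z^2  iff 1 ≤ κ z
    have hzz : 1 ≤ κ * z := by
      have h7 : (1 : ℝ) ^ 2 ≤ (κ * z) ^ 2 := by
        rw [mul_pow, hzy, one_pow]; linarith
      exact le_of_sq_le_sq h7 (by positivity)
    rw [← hzy]
    calc z = 1 * z := (one_mul z).symm
      _ ≤ κ * z * z := mul_le_mul_of_nonneg_right hzz hz0.le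
      _ = κ * z ^ 2 := by ring
  -- the quantity `u`
  set u : ℝ := y ^ (8 * k - 2) with hu
  have hu0 : 0 < u := by positivity
  have huy : y ^ (8 * k) = u * y ^ 2 := by
    rw [hu, ← pow_add]; congr 1; omega
  have hu14 : y ^ 14 ≤ u := by rw [hu]; exact pow_le_pow_right₀ hy1 (by omega)
  have hqm : a * u * y / 32 ≤ q * m / 32 := by
    have g1 : 1 / y * (a * y ^ (8 * k)) ≤ q * m :=
      mul_le_mul hq1 hm1 (by positivity) (by rw [hq]; positivity)
    have g2 : 1 / y * (a * y ^ (8 * k)) = a * u * y := by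
      rw [huy]; field_simp
    linarith
  have hqm2 : 2 * u ≤ q * m / 32 := by
    have : 64 * u ≤ y * a * u := mul_le_mul_of_nonneg_right y1 hu0.le
    linarith
  have hmain := perc_high (k := k) (n := n) (p := p) (l := L * ν) (g := u) (q := q)
    (by omega) (by linarith) (by rw [hp]; linarith) (by positivity) hu0.le
    (by
      have h5 : (16 : ℝ) ^ k * ((n : ℝ) + 1) ^ k ≤ 32 ^ k * ν ^ 2 := by
        have : (32 : ℝ) ^ k = 16 ^ k * 2 ^ k := by rw [← mul_pow]; norm_num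
        rw [this, mul_assoc, ← hν2]
        exact mul_le_mul_of_nonneg_left hn1 (by positivity)
      calc 16 * (16 ^ k * ((n : ℝ) + 1) ^ k) ≤ 16 * (32 ^ k * ν ^ 2) := by linarith
        _ = L * ν ^ 2 := by rw [hL]; ring
        _ ≤ L ^ 2 * ν ^ 2 := by
            apply mul_le_mul_of_nonneg_right _ (by positivity)
            exact aux_sq (by linarith)
        _ = (L * ν) ^ 2 := by ring)
    hm0 hM0 rfl
    (by
      have h1 : (16 * ν) ^ 2 ≤ s ^ 2 := by
        apply pow_le_pow_left₀ (by positivity)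
        have : 16 * ν ≤ L * ν := mul_le_mul_of_nonneg_right hL1 hν0.le
        linarith
      have h2 : M ≤ ν ^ 2 := by rw [← hν2]; exact hM2
      have h3 : 0 ≤ ν ^ 2 := by positivity
      show 4 * M ≤ s ^ 2
      linarith [show (16 * ν) ^ 2 = 256 * ν ^ 2 by ring])
    (by
      show 16 * s ≤ M
      have h1 : c * 2 ^ k * l + L ≤ (2 ^ k + L) * y := by
        have g1 : c * 2 ^ k * l ≤ 2 ^ k * y := by
          calc c * 2 ^ k * l ≤ 1 * 2 ^ k * y := by
                apply mul_le_mul _ hly hl0 (by positivity)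
                exact mul_le_mul_of_nonneg_right hc1 (by positivity)
            _ = 2 ^ k * y := by ring
        have g2 : L ≤ L * y := by
          have : 0 ≤ L := by linarith
          exact le_mul_of_one_le_right this hy1
        linarith
      have h2 : 16 * (c * 2 ^ k * l + L) ≤ a * ν := by
        calc 16 * (c * 2 ^ k * l + L) ≤ 16 * ((2 ^ k + L) * y) := by linarith
          _ = 16 * (2 ^ k + L) * y := by ring
          _ ≤ y * a * y := mul_le_mul_of_nonneg_right y2 hy0.le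
          _ = a * y ^ 2 := by ring
          _ ≤ a * ν := mul_le_mul_of_nonneg_left hyy ha0.le
      calc 16 * s ≤ 16 * ((c * 2 ^ k * l + L) * ν) := by linarith
        _ = 16 * (c * 2 ^ k * l + L) * ν := by ring
        _ ≤ a * ν * ν := mul_le_mul_of_nonneg_right h2 hν0.le
        _ = a * y ^ (8 * k) := by rw [hν2]; ring
        _ ≤ M := hM1)
    (by
      refine le_trans ?_ hqm2
      have h1 : (1 / 2 - p) * N ≤ u := by
        refine hdN.trans ?_
        calc c * 2 ^ k * l * ν ≤ 1 * y * y * ν := by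
              apply mul_le_mul_of_nonneg_right _ hν0.le
              apply mul_le_mul _ hly hl0 (by positivity)
              apply mul_le_mul hc1 (by linarith) (by positivity) (by norm_num)
          _ = y ^ (4 * k + 2) := by rw [hν, pow_add]; ring
          _ ≤ u := by rw [hu]; exact pow_le_pow_right₀ hy1 (by omega)
      show u + (1 / 2 - p) * N ≤ 2 * u
      linarith)
  apply pc_le (by rw [hp]; linarith)
  -- the numerical estimate
  have hn8 : (8 : ℝ) ≤ n := by
    rw [← hyn]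
    calc (8 : ℝ) ≤ y := hy8
      _ = y ^ 1 := (pow_one y).symm
      _ ≤ y ^ 8 := pow_le_pow_right₀ hy1 (by norm_num)
  have hu8 : (n : ℝ) ≤ u := by
    rw [← hyn]
    exact le_trans (pow_le_pow_right₀ hy1 (by norm_num)) hu14
  have f1 : 2 * (n : ℝ) ≤ u ^ 2 / (4 * (16 ^ k * ((n : ℝ) + 1) ^ k)) := by
    rw [le_div_iff₀ (by positivity)]
    have h5 : (16 : ℝ) ^ k * ((n : ℝ) + 1) ^ k ≤ 32 ^ k * (u * y ^ 2) := by
      have : (32 : ℝ) ^ k = 16 ^ k * 2 ^ k := by rw [← mul_pow]; norm_num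
      rw [this, mul_assoc, ← huy]
      exact mul_le_mul_of_nonneg_left hn1 (by positivity)
    have h6 : 8 * 32 ^ k * y ^ 10 ≤ u := by
      calc 8 * 32 ^ k * y ^ 10 ≤ y * y ^ 10 := mul_le_mul_of_nonneg_right y5 (by positivity)
        _ = y ^ 11 := by ring
        _ ≤ y ^ 14 := pow_le_pow_right₀ hy1 (by norm_num)
        _ ≤ u := hu14
    calc 2 * (n : ℝ) * (4 * (16 ^ k * ((n : ℝ) + 1) ^ k))
        ≤ 2 * (n : ℝ) * (4 * (32 ^ k * (u * y ^ 2))) := by
          apply mul_le_mul_of_nonneg_left _ (by positivity)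
          linarith
      _ = 8 * 32 ^ k * y ^ 10 * u := by rw [← hyn]; ring
      _ ≤ u * u := mul_le_mul_of_nonneg_right h6 hu0.le
      _ = u ^ 2 := by ring
  have hmu : 2 * u ≤ m / 128 := by
    have g1 : a * (u * y ^ 2) ≤ m := by rw [← huy]; exact hm1
    have g2 : 256 * (u * y) ≤ y * a * (u * y) := mul_le_mul_of_nonneg_right y6 (by positivity)
    have g3 : u ≤ u * y := le_mul_of_one_le_right hu0.le hy1
    have g4 : y * a * (u * y) = a * (u * y ^ 2) := by ring
    linarith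
  have f2 : 2 * (n : ℝ) ≤ m / 128 := by linarith
  have f3 : 2 * (n : ℝ) ≤ m / 4 := by
    have : m / 128 ≤ m / 4 := by linarith
    linarith
  have f4 : 2 * (n : ℝ) ≤ q * m / 32 := by linarith
  have hE : ∀ t : ℝ, 2 * (n : ℝ) ≤ t → Real.exp (-t) ≤ Real.exp (-(2 * (n : ℝ))) := by
    intro t ht
    exact Real.exp_le_exp.2 (by linarith)
  have h2n : (2 : ℝ) ^ n ≤ Real.exp n := by
    have h2 : (2 : ℝ) ≤ Real.exp 1 := by
      have := Real.add_one_le_exp (1 : ℝ)
      linarith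
    calc (2 : ℝ) ^ n ≤ (Real.exp 1) ^ n := pow_le_pow_left₀ (by norm_num) h2 n
      _ = Real.exp n := by rw [← Real.exp_nat_mul, mul_one]
  have hexp : Real.exp (-(n : ℝ)) ≤ 1 / 9 := by
    rw [Real.exp_neg, ← one_div]
    apply one_div_le_one_div_of_le (by norm_num)
    have := Real.add_one_le_exp (n : ℝ)
    linarith
  have hfin : 1 - prob k n ((deg k n : ℝ) / 2) p ≤ 4 / 9 := by
    refine hmain.trans ?_
    have g1 := hE _ f1
    have g2 := hE _ f2
    have g3 := hE _ f3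
    have g4 := hE _ f4
    calc (2 : ℝ) ^ n * (Real.exp (-(u ^ 2 / (4 * (16 ^ k * ((n : ℝ) + 1) ^ k)))) +
          (Real.exp (-(m / 128)) + (Real.exp (-(m / 4)) + Real.exp (-(q * m / 32)))))
        ≤ Real.exp n * (4 * Real.exp (-(2 * (n : ℝ)))) := by
          apply mul_le_mul h2n _ (by positivity) (by positivity)
          linarith
      _ = 4 * Real.exp (-(n : ℝ)) := by
          have : Real.exp (-(n : ℝ)) = Real.exp n * Real.exp (-(2 * (n : ℝ))) := by
            rw [← Real.exp_add]; congr 1; ring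
          rw [this]; ring
      _ ≤ 4 / 9 := by linarith
  linarith

end Q292.MBP
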