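import Pool.Agent.Q292.MBP.Prob

/-! Independent blocks, and a lower bound for the binomial tail. -/

set_option autoImplicit false

namespace Q292.MBP

open Finset H974

variable {E : Type*} [DecidableEq E]

/-- The expectation of a product over disjoint blocks. -/
theorem blocks {p : E → ℝ} {U : Finset E} {ι : Type*} [DecidableEq ι] (G : Finset ι)
    (T : ι → Finset E) (hT : ∀ i ∈ G, T i ⊆ U)
    (hd : ∀ i ∈ G, ∀ j ∈ G, i ≠ j → Disjoint (T i) (T j))
    (f : ι → Finset E → ℝ) (hf : ∀ i ∈ G, ∀ F, F ⊆ U → f i F = f i (F ∩ T i)) :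
    Ex p U (fun F => ∏ i ∈ G, f i F) = ∏ i ∈ G, Ex p U (f i) := by
  induction G using Finset.induction_on with
  | empty => simp [Ex_const]
  | insert a G ha ih =>
    rw [Finset.prod_insert ha]
    have ih' := ih (fun i hi => hT i (Finset.mem_insert_of_mem hi))
      (fun i hi j hj => hd i (Finset.mem_insert_of_mem hi) j (Finset.mem_insert_of_mem hj))
      (fun i hi => hf i (Finset.mem_insert_of_mem hi))
    rw [← ih']
    have h1 : Ex p U (fun F => ∏ i ∈ insert a G, f i F) =
        Ex p U (fun F => f a F * ∏ i ∈ G, f i F) := by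
      apply Ex_congr
      intro F _
      rw [Finset.prod_insert ha]
    rw [h1]
    apply Ex_mul_indep (S := T a) (T := G.biUnion T)
    · exact hT a (Finset.mem_insert_self a G)
    · intro x hx
      obtain ⟨i, hi, hx⟩ := Finset.mem_biUnion.1 hx
      exact hT i (Finset.mem_insert_of_mem hi) hx
    · rw [Finset.disjoint_biUnion_right]
      intro i hi
      exact hd a (Finset.mem_insert_self a G) i (Finset.mem_insert_of_mem hi)
        (fun h => ha (h ▸ hi))
    · exact hf a (Finset.mem_insert_self a G)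
    · intro F hF
      apply Finset.prod_congr rfl
      intro i hi
      have hi' := Finset.mem_insert_of_mem (a := i) (b := a) hi
      have hsub : F ∩ G.biUnion T ⊆ U := Finset.inter_subset_left.trans hF
      rw [hf i hi' F hF, hf i hi' _ hsub]
      congr 1
      ext x
      simp only [Finset.mem_inter, Finset.mem_biUnion]
      constructor
      · rintro ⟨h1, h2⟩; exact ⟨⟨h1, i, hi, h2⟩, h2⟩
      · rintro ⟨⟨h1, _⟩, h2⟩; exact ⟨h1, h2⟩

/-- Chernoff bound for independent blocks. -/
theorem chernoff {p : E → ℝ} (hp : Ok p) {U : Finset E} {ι : Type*} [DecidableEq ι]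
    (G : Finset ι) (T : ι → Finset E) (hT : ∀ i ∈ G, T i ⊆ U)
    (hd : ∀ i ∈ G, ∀ j ∈ G, i ≠ j → Disjoint (T i) (T j))
    (I : ι → Finset E → Prop) (hI : ∀ i ∈ G, ∀ F, F ⊆ U → (I i F ↔ I i (F ∩ T i)))
    {q : ℝ} (hq0 : 0 ≤ q) (hq : ∀ i ∈ G, q ≤ Pr p U (I i)) (a : ℝ) :
    Pr p U (fun F => ∑ i ∈ G, ind (I i F) < a) ≤ Real.exp (a - q * G.card / 2) := by
  have h1 : Pr p U (fun F => ∑ i ∈ G, ind (I i F) < a) ≤
      Ex p U (fun F => Real.exp a * ∏ i ∈ G, Real.exp (-(ind (I i F)))) := by
    apply markov hp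
    · intro F _
      apply mul_nonneg (Real.exp_pos _).le
      exact Finset.prod_nonneg (fun _ _ => (Real.exp_pos _).le)
    · intro F _ h
      rw [← Real.exp_sum, ← Real.exp_add]
      apply Real.one_le_exp
      rw [Finset.sum_neg_distrib]
      linarith
  refine h1.trans ?_
  rw [Ex_mul_left, blocks G T hT hd (fun i F => Real.exp (-(ind (I i F))))
    (fun i hi F hF => by rw [ind_congr (hI i hi F hF)])]
  have hem : Real.exp (-1) ≤ 1 / 2 := by
    rw [Real.exp_neg, inv_le_comm₀ (Real.exp_pos _) (by norm_num)]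
    have := Real.add_one_le_exp (1 : ℝ)
    linarith
  have h2 : ∀ i ∈ G, Ex p U (fun F => Real.exp (-(ind (I i F)))) ≤ Real.exp (-(q / 2)) := by
    intro i hi
    have e1 : Ex p U (fun F => Real.exp (-(ind (I i F)))) =
        1 - (1 - Real.exp (-1)) * Pr p U (I i) := by
      unfold Pr
      have e2 : Ex p U (fun F => Real.exp (-(ind (I i F)))) =
          Ex p U (fun F => 1 - (1 - Real.exp (-1)) * ind (I i F)) := by
        apply Ex_congr
        intro F _
        by_cases h : I i F
        · rw [ind_of h]; ring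
        · rw [ind_not_of h]; simp
      rw [e2, Ex_sub, Ex_const, Ex_mul_left]
    rw [e1]
    have h3 := hq i hi
    have h4 : 1 - (1 - Real.exp (-1)) * Pr p U (I i) ≤ 1 - q / 2 := by nlinarith
    have h5 := Real.add_one_le_exp (-(q / 2))
    linarith
  have h3 : ∏ i ∈ G, Ex p U (fun F => Real.exp (-(ind (I i F)))) ≤
      ∏ _i ∈ G, Real.exp (-(q / 2)) := by
    apply Finset.prod_le_prod
    · intro i _
      exact Ex_nonneg hp (fun _ _ => (Real.exp_pos _).le)
    · exact h2
  rw [Finset.prod_const, ← Real.exp_nat_mul] at h3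
  calc Real.exp a * ∏ i ∈ G, Ex p U (fun F => Real.exp (-(ind (I i F))))
      ≤ Real.exp a * Real.exp (G.card * -(q / 2)) :=
        mul_le_mul_of_nonneg_left h3 (Real.exp_pos _).le
    _ = Real.exp (a - q * G.card / 2) := by
        rw [← Real.exp_add]; congr 1; ring

/-- Chernoff bound for a set of blocks which is chosen by independent randomness. -/
theorem cond_chernoff {p : E → ℝ} (hp : Ok p) {O P : Finset E} (hOP : Disjoint O P)
    {ι : Type*} [DecidableEq ι] (W : Finset ι) (T : ι → Finset E) (hT : ∀ i ∈ W, T i ⊆ P)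
    (hd : ∀ i ∈ W, ∀ j ∈ W, i ≠ j → Disjoint (T i) (T j))
    (I : ι → Finset E → Prop) (hI : ∀ i ∈ W, ∀ F, (I i F ↔ I i (F ∩ T i)))
    {q : ℝ} (hq0 : 0 ≤ q) (hq : ∀ i ∈ W, q ≤ Pr p (T i) (I i))
    (G : Finset E → Finset ι) (hG : ∀ F, F ⊆ O ∪ P → G F = G (F ∩ O)) (hGW : ∀ F, G F ⊆ W)
    (g a : ℝ) :
    Pr p (O ∪ P) (fun F => g ≤ (G F).card ∧ ∑ i ∈ G F, ind (I i F) < a) ≤
      Real.exp (a - q * g / 2) := by
  unfold Pr
  rw [Ex_union hOP]
  apply Ex_le_of_le hp
  intro A hA
  have hGA : ∀ B, B ⊆ P → G (A ∪ B) = G A := by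
    intro B hB
    rw [hG (A ∪ B) (Finset.union_subset_union hA hB), hG A (hA.trans Finset.subset_union_left)]
    congr 1
    ext x
    simp only [Finset.mem_inter, Finset.mem_union]
    constructor
    · rintro ⟨h | h, h2⟩
      · exact ⟨h, h2⟩
      · exact absurd (hB h) (Finset.disjoint_left.1 hOP h2)
    · rintro ⟨h, h2⟩
      exact ⟨Or.inl h, h2⟩
  have hIA : ∀ i ∈ W, ∀ B, B ⊆ P → (I i (A ∪ B) ↔ I i B) := by
    intro i hi B hB
    rw [hI i hi (A ∪ B), hI i hi B]
    have : (A ∪ B) ∩ T i = B ∩ T i := by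
      ext x
      simp only [Finset.mem_inter, Finset.mem_union]
      constructor
      · rintro ⟨h | h, h2⟩
        · exact absurd (hT i hi h2) (Finset.disjoint_left.1 hOP (hA h))
        · exact ⟨h, h2⟩
      · rintro ⟨h, h2⟩
        exact ⟨Or.inr h, h2⟩
    rw [this]
  by_cases hg : g ≤ (G A).card
  · have h1 : Ex p P (fun B => ind (g ≤ ((G (A ∪ B)).card : ℝ) ∧
        ∑ i ∈ G (A ∪ B), ind (I i (A ∪ B)) < a)) =
        Pr p P (fun B => ∑ i ∈ G A, ind (I i B) < a) := by
      unfold Pr
      apply Ex_congr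
      intro B hB
      apply ind_congr
      rw [hGA B hB]
      have : ∑ i ∈ G A, ind (I i (A ∪ B)) = ∑ i ∈ G A, ind (I i B) := by
        apply Finset.sum_congr rfl
        intro i hi
        rw [ind_congr (hIA i (hGW A hi) B hB)]
      rw [this]
      exact ⟨fun h => h.2, fun h => ⟨hg, h⟩⟩
    rw [h1]
    have h2 := chernoff hp (U := P) (G A) T (fun i hi => hT i (hGW A hi))
      (fun i hi j hj => hd i (hGW A hi) j (hGW A hj)) I
      (fun i hi F _ => hI i (hGW A hi) F) hq0
      (fun i hi => by
        rw [Pr_local (hT i (hGW A hi)) (fun F _ => hI i (hGW A hi) F)]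
        exact hq i (hGW A hi)) a
    refine h2.trans ?_
    apply Real.exp_le_exp.2
    have : q * g ≤ q * (G A).card := mul_le_mul_of_nonneg_left hg hq0
    linarith
  · have h1 : Ex p P (fun B => ind (g ≤ ((G (A ∪ B)).card : ℝ) ∧
        ∑ i ∈ G (A ∪ B), ind (I i (A ∪ B)) < a)) = 0 := by
      rw [Ex_congr (g := fun _ => 0)]
      · exact Ex_const _ _ _
      · intro B hB
        apply ind_not_of
        rw [hGA B hB]
        exact fun h => hg h.1
    rw [h1]
    exact (Real.exp_pos _).le

omit [DecidableEq E] in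
theorem Ok_const {p : ℝ} (h0 : 0 ≤ p) (h1 : p ≤ 1) : Ok (fun _ : E => p) := fun _ => ⟨h0, h1⟩

/-- A lower bound for the upper tail of the binomial distribution. -/
theorem tail_low {T : Finset E} {p s : ℝ} (hM : 0 < (T.card : ℝ)) (hp0 : 1 / 4 ≤ p)
    (hp1 : p ≤ 1 / 2) (hs0 : 0 ≤ s) (hs : 4 * T.card ≤ s ^ 2) (hsM : 16 * s ≤ T.card) :
    1 / 2 * Real.exp (-(36 * s ^ 2 / T.card)) ≤
      Pr (fun _ => p) T (fun F => p * T.card + s ≤ F.card) := by
  set M : ℝ := (T.card : ℝ) with hMdef
  set r : ℝ := p + 2 * s / M with hr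
  have hsM' : s / M ≤ 1 / 16 := by rw [div_le_iff₀ hM]; linarith
  have hsM0 : 0 ≤ s / M := div_nonneg hs0 hM.le
  have hr' : r = p + 2 * (s / M) := by rw [hr]; ring
  have hr0 : 0 ≤ r := by rw [hr']; linarith
  have hr1 : r ≤ 1 := by rw [hr']; linarith
  have hrM : r * M = p * M + 2 * s := by rw [hr]; field_simp
  -- the middle event
  have hup : Pr (fun _ => r) T (fun F => p * M + 3 * s < F.card) ≤ Real.exp (-2) := by
    have h := hoeff_up (Ok_const hr0 hr1) T (fun _ => (1 : ℝ)) (K := M) (l := s) hM
      (by simp [hMdef]) hs0 (A := fun F => p * M + 3 * s < F.card)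
      (by
        intro F _ h
        simp only [Finset.sum_const, nsmul_eq_mul, mul_one, one_mul]
        rw [← hMdef, mul_comm M r, hrM]
        linarith)
    refine h.trans (Real.exp_le_exp.2 ?_)
    have : 2 ≤ s ^ 2 / (2 * M) := by rw [le_div_iff₀ (by positivity)]; linarith
    linarith
  have hlow : Pr (fun _ => r) T (fun F => (F.card : ℝ) < p * M + s) ≤ Real.exp (-2) := by
    have h := hoeff_low (Ok_const hr0 hr1) T (fun _ => (1 : ℝ)) (K := M) (l := s) hM
      (by simp [hMdef]) hs0 (A := fun F => (F.card : ℝ) < p * M + s)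
      (by
        intro F _ h
        simp only [Finset.sum_const, nsmul_eq_mul, mul_one, one_mul]
        rw [← hMdef, mul_comm M r, hrM]
        linarith)
    refine h.trans (Real.exp_le_exp.2 ?_)
    have : 2 ≤ s ^ 2 / (2 * M) := by rw [le_div_iff₀ (by positivity)]; linarith
    linarith
  have he2 : Real.exp (-2) ≤ 1 / 4 := by
    rw [Real.exp_neg, inv_le_comm₀ (Real.exp_pos _) (by norm_num)]
    have h1 := Real.add_one_le_exp (1 : ℝ)
    have h2 : Real.exp 2 = Real.exp 1 * Real.exp 1 := by rw [← Real.exp_add]; norm_num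
    rw [h2]
    nlinarith
  have hmid : 1 / 2 ≤ Pr (fun _ => r) T
      (fun F => p * M + s ≤ F.card ∧ (F.card : ℝ) ≤ p * M + 3 * s) := by
    have h1 : Pr (fun _ => r) T
        (fun F => ¬ (p * M + s ≤ F.card ∧ (F.card : ℝ) ≤ p * M + 3 * s)) ≤ 1 / 2 := by
      have h2 : Pr (fun _ => r) T
        (fun F => ¬ (p * M + s ≤ F.card ∧ (F.card : ℝ) ≤ p * M + 3 * s)) ≤
        Pr (fun _ => r) T (fun F => p * M + 3 * s < F.card ∨ (F.card : ℝ) < p * M + s) := by
        apply Pr_mono (Ok_const hr0 hr1)
        intro F _ h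
        by_contra hcon
        push Not at hcon
        exact h ⟨hcon.2, hcon.1⟩
      have h3 := Pr_or_le (Ok_const (E := E) hr0 hr1) T (fun F => p * M + 3 * s < F.card)
        (fun F => (F.card : ℝ) < p * M + s)
      linarith
    rw [Pr_not] at h1
    linarith
  -- change of measure
  have hcm : Real.exp (-(36 * s ^ 2 / M)) * Pr (fun _ => r) T
      (fun F => p * M + s ≤ F.card ∧ (F.card : ℝ) ≤ p * M + 3 * s) ≤
      Pr (fun _ => p) T (fun F => p * M + s ≤ F.card) := by
    unfold Pr Ex
    rw [Finset.mul_sum]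
    apply Finset.sum_le_sum
    intro F hF
    have hFT := Finset.mem_powerset.1 hF
    rw [Finset.prod_const, Finset.prod_const, Finset.prod_const, Finset.prod_const]
    beta_reduce
    have hw0 : 0 ≤ p ^ F.card * (1 - p) ^ (T \ F).card := by
      have : 0 ≤ 1 - p := by linarith
      have : 0 ≤ p := by linarith
      positivity
    by_cases h : p * M + s ≤ F.card ∧ (F.card : ℝ) ≤ p * M + 3 * s
    · rw [ind_of h, ind_of h.1, mul_one, mul_one]
      have hp' : 0 < p := by linarith
      have h1p : 0 < 1 - p := by linarith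
      have hcard : ((T \ F).card : ℝ) = M - F.card := by
        have := Finset.card_sdiff_add_card_eq_card hFT
        rw [hMdef]
        have h2 : ((T \ F).card : ℝ) + F.card = T.card := by exact_mod_cast this
        linarith
      have e1 : r ^ F.card ≤ p ^ F.card * Real.exp (F.card * (2 * s / (M * p))) := by
        rw [Real.exp_nat_mul, ← mul_pow]
        apply pow_le_pow_left₀ hr0
        have h3 := Real.add_one_le_exp (2 * s / (M * p))
        have h4 : r = p * (2 * s / (M * p) + 1) := by rw [hr]; field_simp; ring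
        rw [h4]
        exact mul_le_mul_of_nonneg_left h3 hp'.le
      have e2 : (1 - r) ^ (T \ F).card ≤ (1 - p) ^ (T \ F).card *
          Real.exp ((T \ F).card * (-(2 * s / (M * (1 - p))))) := by
        rw [Real.exp_nat_mul, ← mul_pow]
        apply pow_le_pow_left₀ (by linarith)
        have h3 := Real.add_one_le_exp (-(2 * s / (M * (1 - p))))
        have h4 : 1 - r = (1 - p) * (-(2 * s / (M * (1 - p))) + 1) := by
          rw [hr]; field_simp; ring
        rw [h4]
        exact mul_le_mul_of_nonneg_left h3 h1p.le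
      have e3 : r ^ F.card * (1 - r) ^ (T \ F).card ≤
          (p ^ F.card * (1 - p) ^ (T \ F).card) * Real.exp (36 * s ^ 2 / M) := by
        calc r ^ F.card * (1 - r) ^ (T \ F).card
            ≤ (p ^ F.card * Real.exp (F.card * (2 * s / (M * p)))) *
              ((1 - p) ^ (T \ F).card *
                Real.exp ((T \ F).card * (-(2 * s / (M * (1 - p)))))) := by
              apply mul_le_mul e1 e2
              · apply pow_nonneg; linarith
              · positivity
          _ = (p ^ F.card * (1 - p) ^ (T \ F).card) *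
              Real.exp (F.card * (2 * s / (M * p)) +
                (T \ F).card * (-(2 * s / (M * (1 - p))))) := by
              rw [Real.exp_add]; ring
          _ ≤ _ := by
              apply mul_le_mul_of_nonneg_left _ hw0
              apply Real.exp_le_exp.2
              rw [hcard]
              have h5 : (F.card : ℝ) * (2 * s / (M * p)) +
                  (M - F.card) * (-(2 * s / (M * (1 - p)))) =
                  2 * s / M * ((F.card : ℝ) / p - (M - F.card) / (1 - p)) := by
                field_simp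
                ring
              rw [h5]
              have h6 : (F.card : ℝ) / p ≤ M + 12 * s := by
                rw [div_le_iff₀ hp']
                nlinarith [h.2]
              have h7 : M - 6 * s ≤ (M - F.card) / (1 - p) := by
                rw [le_div_iff₀ h1p]
                nlinarith [h.2]
              have h8 : 0 ≤ 2 * s / M := by positivity
              calc 2 * s / M * ((F.card : ℝ) / p - (M - F.card) / (1 - p))
                  ≤ 2 * s / M * (18 * s) := by
                    apply mul_le_mul_of_nonneg_left _ h8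
                    linarith
                _ = 36 * s ^ 2 / M := by ring
      calc Real.exp (-(36 * s ^ 2 / M)) * (r ^ F.card * (1 - r) ^ (T \ F).card)
          ≤ Real.exp (-(36 * s ^ 2 / M)) *
            ((p ^ F.card * (1 - p) ^ (T \ F).card) * Real.exp (36 * s ^ 2 / M)) :=
            mul_le_mul_of_nonneg_left e3 (Real.exp_pos _).le
        _ = (p ^ F.card * (1 - p) ^ (T \ F).card) *
            (Real.exp (-(36 * s ^ 2 / M)) * Real.exp (36 * s ^ 2 / M)) := by ring
        _ = p ^ F.card * (1 - p) ^ (T \ F).card := by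
            rw [← Real.exp_add]; simp
    · rw [ind_not_of h]
      simp only [mul_zero]
      exact mul_nonneg hw0 (ind_nonneg _)
  calc 1 / 2 * Real.exp (-(36 * s ^ 2 / M))
      = Real.exp (-(36 * s ^ 2 / M)) * (1 / 2) := by ring
    _ ≤ Real.exp (-(36 * s ^ 2 / M)) * Pr (fun _ => r) T
        (fun F => p * M + s ≤ F.card ∧ (F.card : ℝ) ≤ p * M + 3 * s) :=
        mul_le_mul_of_nonneg_left hmid (Real.exp_pos _).le
    _ ≤ _ := hcm

end Q292.MBP
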