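import Pool.Agent.Q292.MBP.Geo
import Pool.Agent.Q292.MBP.Block

/-! The bootstrap process and deviation bounds for families of neighbourhoods. -/

set_option autoImplicit false

namespace Q292.MBP

open Finset H974

variable {n k : ℕ}

theorem mem_step {r : ℝ} {A : Finset (Q n)} {v : Q n} :
    v ∈ step k r A ↔ v ∈ A ∨ r ≤ ((Nb k v ∩ A).card : ℝ) := by
  unfold step
  rw [mem_union, mem_filter]
  simp

theorem step_mono {r : ℝ} {A B : Finset (Q n)} (h : A ⊆ B) : step k r A ⊆ step k r B := by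
  intro v hv
  rw [mem_step] at hv ⊢
  rcases hv with hv | hv
  · exact Or.inl (h hv)
  · right
    refine hv.trans ?_
    exact_mod_cast card_le_card (inter_subset_inter_left h)

theorem iter_mono {r : ℝ} {A B : Finset (Q n)} (h : A ⊆ B) (t : ℕ) :
    (step k r)^[t] A ⊆ (step k r)^[t] B := by
  induction t with
  | zero => exact h
  | succ t ih =>
    rw [Function.iterate_succ_apply', Function.iterate_succ_apply']
    exact step_mono ih

theorem perc_mono {r : ℝ} {A B : Finset (Q n)} (h : A ⊆ B) (hA : Percolates k r A) :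
    Percolates k r B := by
  intro v
  obtain ⟨t, ht⟩ := hA v
  exact ⟨t, iter_mono h t ht⟩

/-- A closed set containing `A` contains everything that gets infected. -/
theorem closed_bound {r : ℝ} {A S : Finset (Q n)} (hAS : A ⊆ S)
    (hS : ∀ v, r ≤ ((Nb k v ∩ S).card : ℝ) → v ∈ S) (t : ℕ) : (step k r)^[t] A ⊆ S := by
  induction t with
  | zero => exact hAS
  | succ t ih =>
    rw [Function.iterate_succ_apply']
    intro v hv
    rw [mem_step] at hv
    rcases hv with hv | hv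
    · exact ih hv
    · apply hS
      refine hv.trans ?_
      exact_mod_cast card_le_card (inter_subset_inter_left ih)

/-- Percolation in two steps. -/
theorem perc_of_two {r : ℝ} {A : Finset (Q n)}
    (h : ∀ v, r ≤ ((Nb k v ∩ step k r A).card : ℝ)) : Percolates k r A := by
  intro v
  refine ⟨2, ?_⟩
  show v ∈ step k r (step k r A)
  rw [mem_step]
  exact Or.inr (h v)

theorem prob_eq (r p : ℝ) :
    prob k n r p = Pr (fun _ : Q n => p) univ (fun A => Percolates k r A) := by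
  unfold prob Pr Ex
  rw [powerset_univ]
  apply sum_congr rfl
  intro A _
  rw [prod_const, prod_const, ← compl_eq_univ_sdiff, card_compl]
  have hc : Fintype.card (Q n) = 2 ^ n := by simp
  rw [hc]
  beta_reduce
  by_cases h : Percolates k r A
  · rw [if_pos h, ind_of h, mul_one]
  · rw [if_neg h, ind_not_of h, mul_zero]

theorem prob_mono {r p q : ℝ} (hp0 : 0 ≤ p) (hpq : p ≤ q) (hq : q ≤ 1) :
    prob k n r p ≤ prob k n r q := by
  rw [prob_eq, prob_eq]
  apply Pr_mono_param (Ok_const hp0 (hpq.trans hq)) (Ok_const (hp0.trans hpq) hq)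
    (fun _ => hpq)
  intro A B h _ hA
  exact perc_mono h hA

/-! ### Deviations of families of neighbourhoods -/

/-- The number of `w ∈ S` with `x ∈ Z w`. -/
noncomputable def mul (Z : Q n → Finset (Q n)) (S : Finset (Q n)) (x : Q n) : ℝ :=
  ∑ w ∈ S, if x ∈ Z w then 1 else 0

theorem sum_mul' (Z : Q n → Finset (Q n)) (S A : Finset (Q n)) :
    ∑ x ∈ A, mul Z S x = ∑ w ∈ S, ((Z w ∩ A).card : ℝ) := by
  unfold mul
  rw [sum_comm]
  apply sum_congr rfl
  intro w _
  rw [← sum_filter, sum_const, nsmul_eq_mul, mul_one]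
  congr 2
  ext x
  rw [mem_filter, mem_inter]
  tauto

theorem mul_nonneg' (Z : Q n → Finset (Q n)) (S : Finset (Q n)) (x : Q n) : 0 ≤ mul Z S x := by
  unfold mul
  apply sum_nonneg
  intro w _
  split_ifs <;> norm_num

theorem mul_le_cnt {Z : Q n → Finset (Q n)} (hZ : ∀ w, Z w ⊆ Nb k w) (S : Finset (Q n)) (x : Q n) :
    mul Z S x ≤ cnt k S x := by
  unfold mul cnt
  rw [card_filter, Nat.cast_sum]
  apply sum_le_sum
  intro w _
  by_cases h : x ∈ Z w
  · have h2 := (mem_Nb.1 (hZ w h)).2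
    rw [if_pos h, if_pos h2]; norm_num
  · rw [if_neg h]
    positivity

theorem sum_sq_mul {Z : Q n → Finset (Q n)} (hZ : ∀ w, Z w ⊆ Nb k w) (v : Q n)
    (S : Finset (Q n)) (hS : ∀ w ∈ S, hammingDist w v ≤ k) :
    ∑ x : Q n, mul Z S x ^ 2 ≤ 2 * (16 ^ k * ((n : ℝ) + 1) ^ k) * S.card := by
  have h1 : ∑ x : Q n, mul Z S x ^ 2 ≤ ∑ x : Q n, ((cnt k S x : ℕ) : ℝ) ^ 2 := by
    apply sum_le_sum
    intro x _
    exact pow_le_pow_left₀ (mul_nonneg' Z S x) (mul_le_cnt hZ S x) 2
  refine h1.trans ?_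
  have h2 := overlap v S hS
  have h3 : ((∑ x : Q n, (cnt k S x) ^ 2 : ℕ) : ℝ) ≤
      ((2 * (16 ^ k * (n + 1) ^ k) * S.card : ℕ) : ℝ) := by exact_mod_cast h2
  push_cast at h3
  exact h3

/-- Upward deviations. -/
theorem dev_up {p s : ℝ} (hp0 : 0 ≤ p) (hp1 : p ≤ 1) (hs : 0 ≤ s) {Z : Q n → Finset (Q n)}
    (hZ : ∀ w, Z w ⊆ Nb k w) (v : Q n) (S : Finset (Q n)) (hS : ∀ w ∈ S, hammingDist w v ≤ k) :
    Pr (fun _ : Q n => p) univ (fun A => ∀ w ∈ S, p * (Z w).card + s ≤ ((Z w ∩ A).card : ℝ)) ≤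
      Real.exp (-(S.card * (s ^ 2 / (4 * (16 ^ k * ((n : ℝ) + 1) ^ k))))) := by
  rcases S.eq_empty_or_nonempty with rfl | hne
  · simp only [card_empty, Nat.cast_zero, zero_mul, neg_zero, Real.exp_zero]
    exact Pr_le_one (Ok_const hp0 hp1) _ _
  have hm : 0 < (S.card : ℝ) := by exact_mod_cast hne.card_pos
  have hK : 0 < 2 * (16 ^ k * ((n : ℝ) + 1) ^ k) * S.card := by positivity
  have h := hoeff_up (Ok_const hp0 hp1) univ (mul Z S) (l := S.card * s) hK
    (sum_sq_mul hZ v S hS) (by positivity)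
    (A := fun A => ∀ w ∈ S, p * (Z w).card + s ≤ ((Z w ∩ A).card : ℝ))
    (by
      intro A _ hA
      rw [sum_mul', ← sum_mul, sum_mul', sum_mul]
      rw [← sum_sub_distrib]
      have : ∑ w ∈ S, s ≤ ∑ w ∈ S, (((Z w ∩ A).card : ℝ) - ((Z w ∩ univ).card : ℝ) * p) := by
        apply sum_le_sum
        intro w hw
        have := hA w hw
        rw [inter_univ]
        linarith
      rw [sum_const, nsmul_eq_mul] at this
      exact this)
  refine h.trans (Real.exp_le_exp.2 (le_of_eq ?_))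
  field_simp
  ring

/-- Downward deviations. -/
theorem dev_low {p s : ℝ} (hp0 : 0 ≤ p) (hp1 : p ≤ 1) (hs : 0 ≤ s) {Z : Q n → Finset (Q n)}
    (hZ : ∀ w, Z w ⊆ Nb k w) (v : Q n) (S : Finset (Q n)) (hS : ∀ w ∈ S, hammingDist w v ≤ k) :
    Pr (fun _ : Q n => p) univ (fun A => ∀ w ∈ S, ((Z w ∩ A).card : ℝ) + s ≤ p * (Z w).card) ≤
      Real.exp (-(S.card * (s ^ 2 / (4 * (16 ^ k * ((n : ℝ) + 1) ^ k))))) := by
  rcases S.eq_empty_or_nonempty with rfl | hne
  · simp only [card_empty, Nat.cast_zero, zero_mul, neg_zero, Real.exp_zero]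
    exact Pr_le_one (Ok_const hp0 hp1) _ _
  have hm : 0 < (S.card : ℝ) := by exact_mod_cast hne.card_pos
  have hK : 0 < 2 * (16 ^ k * ((n : ℝ) + 1) ^ k) * S.card := by positivity
  have h := hoeff_low (Ok_const hp0 hp1) univ (mul Z S) (l := S.card * s) hK
    (sum_sq_mul hZ v S hS) (by positivity)
    (A := fun A => ∀ w ∈ S, ((Z w ∩ A).card : ℝ) + s ≤ p * (Z w).card)
    (by
      intro A _ hA
      rw [sum_mul', ← sum_mul, sum_mul', sum_mul]
      rw [← sum_sub_distrib]
      have : ∑ w ∈ S, s ≤ ∑ w ∈ S, (((Z w ∩ univ).card : ℝ) * p - ((Z w ∩ A).card : ℝ)) := by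
        apply sum_le_sum
        intro w hw
        have := hA w hw
        rw [inter_univ]
        linarith
      rw [sum_const, nsmul_eq_mul] at this
      exact this)
  refine h.trans (Real.exp_le_exp.2 (le_of_eq ?_))
  field_simp
  ring

end Q292.MBP
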