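import Mathlib

/-! Bootstrap percolation on the distance-`k` hypercube: definitions. -/

set_option autoImplicit false

namespace Q292.MBP

open Finset

/-- The vertices `{0,1}^n` of the cube. -/
abbrev Q (n : ℕ) : Type := Fin n → Bool

/-- The neighbourhood of `v` in the distance-`k` hypercube `Q_{k,n}`: the vertices whose Hamming
distance to `v` is one of `1, ..., k`. -/
def Nb {n : ℕ} (k : ℕ) (v : Q n) : Finset (Q n) :=
  univ.filter (fun u => 1 ≤ hammingDist u v ∧ hammingDist u v ≤ k)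

/-- The degree `N = ∑_{i=1}^k (n choose i)` of the distance-`k` hypercube. -/
def deg (k n : ℕ) : ℕ := ∑ i ∈ Icc 1 k, n.choose i

open Classical in
/-- One step of `r`-neighbour bootstrap percolation on `Q_{k,n}`:
`A ↦ A ∪ {v : |N(v) ∩ A| ≥ r}`. -/
noncomputable def step {n : ℕ} (k : ℕ) (r : ℝ) (A : Finset (Q n)) : Finset (Q n) :=
  A ∪ univ.filter (fun v => r ≤ ((Nb k v ∩ A).card : ℝ))

/-- `A` percolates: every vertex lies in some `A_t`. -/
def Percolates {n : ℕ} (k : ℕ) (r : ℝ) (A : Finset (Q n)) : Prop :=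
  ∀ v : Q n, ∃ t : ℕ, v ∈ (step k r)^[t] A

open Classical in
/-- The probability that the `p`-random subset of the cube percolates. -/
noncomputable def prob (k n : ℕ) (r p : ℝ) : ℝ :=
  ∑ A : Finset (Q n),
    if Percolates k r A then p ^ A.card * (1 - p) ^ (2 ^ n - A.card) else 0

/-- The critical probability `p_c(Q_{k,n}, r) = sup {p ∈ (0,1) : P_p(A percolates) ≤ 1/2}`. -/
noncomputable def pc (k n : ℕ) (r : ℝ) : ℝ :=
  sSup {p : ℝ | 0 < p ∧ p < 1 ∧ prob k n r p ≤ 1 / 2}

end Q292.MBP
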