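import Pool.Agent.Q292.MBP.Def

/-! Geometry of the distance-`k` hypercube. -/

set_option autoImplicit false

namespace Q292.MBP

open Finset

variable {n k : ℕ}

/-- The coordinates in which `x` and `v` differ. -/
def D (v x : Q n) : Finset (Fin n) := univ.filter (fun i => x i ≠ v i)

theorem mem_D {v x : Q n} {i : Fin n} : i ∈ D v x ↔ x i ≠ v i := by simp [D]

theorem card_D (v x : Q n) : (D v x).card = hammingDist x v := rfl

theorem D_self (v : Q n) : D v v = ∅ := by
  ext i; simp [mem_D]

theorem dist_eq (v x w : Q n) : hammingDist x w = (symmDiff (D v x) (D v w)).card := by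
  unfold hammingDist
  congr 1
  ext i
  rw [mem_filter, mem_symmDiff, mem_D, mem_D]
  cases x i <;> cases w i <;> cases v i <;> simp

/-- The inverse of `D v`. -/
def U (v : Q n) (a : Finset (Fin n)) : Q n := fun i => if i ∈ a then !v i else v i

theorem D_U (v : Q n) (a : Finset (Fin n)) : D v (U v a) = a := by
  ext i
  rw [mem_D]
  unfold U
  by_cases h : i ∈ a <;> simp [h]

theorem U_D (v x : Q n) : U v (D v x) = x := by
  funext i
  unfold U
  by_cases h : i ∈ D v x
  · rw [if_pos h]
    rw [mem_D] at h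
    cases h1 : x i <;> cases h2 : v i <;> simp_all
  · rw [if_neg h]
    rw [mem_D] at h
    push Not at h
    exact h.symm

theorem D_inj (v : Q n) : Function.Injective (D v) := fun x y h => by
  rw [← U_D v x, ← U_D v y, h]

theorem U_inj (v : Q n) : Function.Injective (U v) := fun a b h => by
  rw [← D_U v a, ← D_U v b, h]

/-- `D v` as an equivalence. -/
def eqv (v : Q n) : Q n ≃ Finset (Fin n) where
  toFun := D v
  invFun := U v
  left_inv := U_D v
  right_inv := D_U v

theorem mem_Nb {v u : Q n} : u ∈ Nb k v ↔ 1 ≤ hammingDist u v ∧ hammingDist u v ≤ k := by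
  simp [Nb]

theorem mem_Nb_comm {v u : Q n} : u ∈ Nb k v ↔ v ∈ Nb k u := by
  rw [mem_Nb, mem_Nb, hammingDist_comm]

/-- The small subsets of `Fin n`. -/
def small (n k : ℕ) : Finset (Finset (Fin n)) := univ.filter (fun a => a.card ≤ k)

theorem mem_small {a : Finset (Fin n)} : a ∈ small n k ↔ a.card ≤ k := by simp [small]

theorem card_small (n k : ℕ) : (small n k).card ≤ (n + 1) ^ k := by
  have h1 : small n k = (range (k + 1)).biUnion (fun i => powersetCard i univ) := by
    ext a
    rw [mem_small, mem_biUnion]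
    constructor
    · intro h
      exact ⟨a.card, mem_range.2 (by omega), mem_powersetCard.2 ⟨subset_univ _, rfl⟩⟩
    · rintro ⟨i, hi, ha⟩
      have := (mem_powersetCard.1 ha).2
      have := mem_range.1 hi
      omega
  have h2 : (small n k).card ≤ ∑ i ∈ range (k + 1), n.choose i := by
    rw [h1]
    refine card_biUnion_le.trans (le_of_eq ?_)
    apply sum_congr rfl
    intro i _
    rw [card_powersetCard, card_univ, Fintype.card_fin]
  refine h2.trans ?_
  rw [add_pow]
  apply sum_le_sum
  intro i hi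
  have hik : i ≤ k := by have := mem_range.1 hi; omega
  rw [one_pow, mul_one]
  calc n.choose i ≤ n ^ i := Nat.choose_le_pow n i
    _ ≤ n ^ i * k.choose i := Nat.le_mul_of_pos_right _ (Nat.choose_pos hik)

theorem card_Nb (v : Q n) : (Nb k v).card = deg k n := by
  have h1 : (Nb k v).image (D v) = (Icc 1 k).biUnion (fun i => powersetCard i univ) := by
    ext a
    rw [mem_image, mem_biUnion]
    constructor
    · rintro ⟨x, hx, rfl⟩
      rw [mem_Nb] at hx
      refine ⟨(D v x).card, ?_, mem_powersetCard.2 ⟨subset_univ _, rfl⟩⟩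
      rw [card_D]
      exact mem_Icc.2 hx
    · rintro ⟨i, hi, ha⟩
      have h2 := (mem_powersetCard.1 ha).2
      refine ⟨U v a, ?_, D_U v a⟩
      rw [mem_Nb, ← card_D, D_U, h2]
      exact mem_Icc.1 hi
  rw [← card_image_of_injective _ (D_inj v), h1, card_biUnion]
  · unfold deg
    apply sum_congr rfl
    intro i _
    rw [card_powersetCard, card_univ, Fintype.card_fin]
  · intro i _ j _ hij
    simp only [Function.onFun]
    rw [disjoint_left]
    intro a ha ha'
    exact hij ((mem_powersetCard.1 ha).2.symm.trans (mem_powersetCard.1 ha').2)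

theorem deg_le (k n : ℕ) : deg k n ≤ (n + 1) ^ k := by
  refine le_trans ?_ (card_small n k)
  have v : Q n := fun _ => true
  rw [← card_Nb v, ← card_image_of_injective _ (D_inj v)]
  apply card_le_card
  intro a ha
  obtain ⟨x, hx, rfl⟩ := mem_image.1 ha
  rw [mem_small, card_D]
  exact (mem_Nb.1 hx).2

/-- The key inequality. -/
theorem key (a b y : Finset (Fin n)) (hab : b.card ≤ a.card)
    (h1 : (symmDiff y a).card ≤ k) (h2 : (symmDiff y b).card ≤ k) :
    ((b ∪ y) \ a).card ≤ k := by
  have e1 : ((b ∪ y) \ a).card ≤ (b \ a).card + (y \ (a ∪ b)).card := by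
    refine le_trans (card_le_card ?_) (card_union_le _ _)
    intro x
    simp only [mem_sdiff, mem_union]
    tauto
  have e2 : (symmDiff a b).card = (a \ b).card + (b \ a).card := by
    rw [symmDiff_def, sup_eq_union, card_union_of_disjoint]
    rw [disjoint_left]
    intro x hx hx'
    exact (mem_sdiff.1 hx').2 (mem_sdiff.1 hx).1
  have e3 : (b \ a).card ≤ (a \ b).card := by
    have h3 := card_sdiff_add_card_inter a b
    have h4 := card_sdiff_add_card_inter b a
    rw [inter_comm b a] at h4
    omega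
  have e4 : (symmDiff a b).card + 2 * (y \ (a ∪ b)).card ≤
      (symmDiff y a).card + (symmDiff y b).card := by
    have s1 : y \ (a ∪ b) ⊆ symmDiff y a := by
      intro x
      simp only [mem_sdiff, mem_union, mem_symmDiff]
      tauto
    have s2 : y \ (a ∪ b) ⊆ symmDiff y b := by
      intro x
      simp only [mem_sdiff, mem_union, mem_symmDiff]
      tauto
    have s3 : symmDiff a b ⊆ (symmDiff y a \ (y \ (a ∪ b))) ∪ (symmDiff y b \ (y \ (a ∪ b))) := by
      intro x
      simp only [mem_sdiff, mem_union, mem_symmDiff]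
      tauto
    have c1 := card_sdiff_add_card_eq_card s1
    have c2 := card_sdiff_add_card_eq_card s2
    have c3 := (card_le_card s3).trans (card_union_le _ _)
    omega
  omega

/-- The number of pairs `(b, y)` as in `key`. -/
theorem count_pairs (a : Finset (Fin n)) (ha : a.card ≤ k) :
    (univ.filter (fun q : Finset (Fin n) × Finset (Fin n) =>
      q.1.card ≤ a.card ∧ (symmDiff q.2 a).card ≤ k ∧ (symmDiff q.2 q.1).card ≤ k)).card ≤
      16 ^ k * (n + 1) ^ k := by
  have h1 : (univ.filter (fun q : Finset (Fin n) × Finset (Fin n) =>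
      q.1.card ≤ a.card ∧ (symmDiff q.2 a).card ≤ k ∧ (symmDiff q.2 q.1).card ≤ k)) ⊆
      (small n k).biUnion (fun u => (a ∪ u).powerset ×ˢ (a ∪ u).powerset) := by
    rintro ⟨b, y⟩ hq
    rw [mem_filter] at hq
    obtain ⟨_, h1, h2, h3⟩ := hq
    rw [mem_biUnion]
    refine ⟨(b ∪ y) \ a, mem_small.2 (key a b y h1 h2 h3), ?_⟩
    rw [mem_product, mem_powerset, mem_powerset]
    constructor
    · intro x hx
      simp only [mem_union, mem_sdiff]
      tauto
    · intro x hx
      simp only [mem_union, mem_sdiff]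
      tauto
  refine (card_le_card h1).trans (card_biUnion_le.trans ?_)
  have h2 : ∀ u ∈ small n k, ((a ∪ u).powerset ×ˢ (a ∪ u).powerset).card ≤ 16 ^ k := by
    intro u hu
    rw [card_product, card_powerset]
    have h3 : (a ∪ u).card ≤ 2 * k := by
      have := card_union_le a u
      have := mem_small.1 hu
      omega
    have h4 : 2 ^ (a ∪ u).card ≤ 2 ^ (2 * k) := Nat.pow_le_pow_right (by norm_num) h3
    calc 2 ^ (a ∪ u).card * 2 ^ (a ∪ u).card ≤ 2 ^ (2 * k) * 2 ^ (2 * k) :=
          Nat.mul_le_mul h4 h4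
      _ = 16 ^ k := by
          rw [← pow_add, ← two_mul, ← mul_assoc, pow_mul]
          norm_num
  calc ∑ u ∈ small n k, ((a ∪ u).powerset ×ˢ (a ∪ u).powerset).card
      ≤ ∑ _u ∈ small n k, 16 ^ k := sum_le_sum h2
    _ = (small n k).card * 16 ^ k := by rw [sum_const, smul_eq_mul]
    _ ≤ (n + 1) ^ k * 16 ^ k := Nat.mul_le_mul_right _ (card_small n k)
    _ = 16 ^ k * (n + 1) ^ k := by ring

/-- The number of elements of `S` within distance `k` of `x`. -/
def cnt (k : ℕ) (S : Finset (Q n)) (x : Q n) : ℕ := (S.filter (fun w => hammingDist x w ≤ k)).card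

/-- The overlap lemma: for a set `S` contained in a ball of radius `k`,
`∑_x c_S(x)^2 ≤ 2 * 16^k * (n+1)^k * |S|`. -/
theorem overlap (v : Q n) (S : Finset (Q n)) (hS : ∀ w ∈ S, hammingDist w v ≤ k) :
    ∑ x : Q n, (cnt k S x) ^ 2 ≤ 2 * (16 ^ k * (n + 1) ^ k) * S.card := by
  classical
  have h1 : ∀ x : Q n, (cnt k S x) ^ 2 = ∑ w ∈ S, ∑ w' ∈ S,
      if hammingDist x w ≤ k ∧ hammingDist x w' ≤ k then 1 else 0 := by
    intro x
    unfold cnt
    rw [sq, card_filter, sum_mul_sum]
    apply sum_congr rfl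
    intro w _
    apply sum_congr rfl
    intro w' _
    by_cases c1 : hammingDist x w ≤ k <;> by_cases c2 : hammingDist x w' ≤ k <;> simp [c1, c2]
  simp_rw [h1]
  rw [sum_comm]
  -- bound for each ordered pair
  have h2 : ∀ w ∈ S, ∑ w' ∈ S, ∑ x : Q n,
      (if (hammingDist w' v ≤ hammingDist w v) ∧ (hammingDist x w ≤ k ∧ hammingDist x w' ≤ k)
        then 1 else 0) ≤ 16 ^ k * (n + 1) ^ k := by
    intro w hw
    have h3 : ∑ w' ∈ S, ∑ x : Q n,
      (if (hammingDist w' v ≤ hammingDist w v) ∧ (hammingDist x w ≤ k ∧ hammingDist x w' ≤ k)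
        then 1 else 0) ≤ ∑ w' : Q n, ∑ x : Q n,
      (if (hammingDist w' v ≤ hammingDist w v) ∧ (hammingDist x w ≤ k ∧ hammingDist x w' ≤ k)
        then 1 else 0) := by
      apply sum_le_sum_of_subset (subset_univ S)
    refine h3.trans ?_
    rw [← sum_product', ← card_filter]
    refine le_trans ?_ (count_pairs (D v w) (by rw [card_D]; exact hS w hw))
    apply card_le_card_of_injOn (fun q : Q n × Q n => (D v q.1, D v q.2))
    · rintro ⟨w', x⟩ hq
      simp only [univ_product_univ, coe_filter, mem_univ, true_and, Set.mem_ofPred_eq] at hq ⊢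
      rw [card_D, card_D, ← dist_eq, ← dist_eq]
      exact ⟨hq.1, hq.2.1, hq.2.2⟩
    · rintro ⟨w1, x1⟩ _ ⟨w2, x2⟩ _ h
      simp only [Prod.mk.injEq] at h
      rw [D_inj v h.1, D_inj v h.2]
  -- symmetrisation
  have h4 : ∑ w ∈ S, ∑ x : Q n, ∑ w' ∈ S,
      (if hammingDist x w ≤ k ∧ hammingDist x w' ≤ k then 1 else 0) ≤
      ∑ w ∈ S, ∑ w' ∈ S, ∑ x : Q n,
      (if (hammingDist w' v ≤ hammingDist w v) ∧ (hammingDist x w ≤ k ∧ hammingDist x w' ≤ k)
        then 1 else 0) +
      ∑ w ∈ S, ∑ w' ∈ S, ∑ x : Q n,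
      (if (hammingDist w v ≤ hammingDist w' v) ∧ (hammingDist x w' ≤ k ∧ hammingDist x w ≤ k)
        then 1 else 0) := by
    rw [← sum_add_distrib]
    apply sum_le_sum
    intro w _
    rw [sum_comm, ← sum_add_distrib]
    apply sum_le_sum
    intro w' _
    rw [← sum_add_distrib]
    apply sum_le_sum
    intro x _
    by_cases c : hammingDist x w ≤ k ∧ hammingDist x w' ≤ k
    · rw [if_pos c]
      rcases le_total (hammingDist w' v) (hammingDist w v) with c3 | c3
      · rw [if_pos ⟨c3, c⟩]; omega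
      · rw [if_pos (show hammingDist w v ≤ hammingDist w' v ∧
          (hammingDist x w' ≤ k ∧ hammingDist x w ≤ k) from ⟨c3, c.2, c.1⟩)]; omega
    · rw [if_neg c]; omega
  have h6 : ∑ w ∈ S, ∑ w' ∈ S, ∑ x : Q n,
      (if (hammingDist w v ≤ hammingDist w' v) ∧ (hammingDist x w' ≤ k ∧ hammingDist x w ≤ k)
        then 1 else 0) = ∑ w ∈ S, ∑ w' ∈ S, ∑ x : Q n,
      (if (hammingDist w' v ≤ hammingDist w v) ∧ (hammingDist x w ≤ k ∧ hammingDist x w' ≤ k)
        then 1 else 0) := sum_comm
  rw [h6] at h4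
  refine h4.trans ?_
  have h5 := sum_le_sum h2
  rw [sum_const, smul_eq_mul] at h5
  calc _ ≤ S.card * (16 ^ k * (n + 1) ^ k) + S.card * (16 ^ k * (n + 1) ^ k) :=
        Nat.add_le_add h5 h5
    _ = _ := by ring

end Q292.MBP
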