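import Pool.Agent.Q292.MBP.Base

/-! No percolation below the threshold. -/

set_option autoImplicit false

namespace Q292.MBP

open Finset H974

variable {n k : ℕ}

theorem card_Q (n : ℕ) : (univ : Finset (Q n)).card = 2 ^ n := by simp

/-- The deterministic part. -/
theorem det_low {N s : ℝ} (A : Finset (Q n))
    (h : ∀ v : Q n, (((Nb k v).filter (fun w => N / 2 - s ≤ ((Nb k w ∩ A).card : ℝ))).card : ℝ) < s)
    (hA : Percolates k (N / 2) A) (v : Q n) :
    v ∈ A ∨ N / 2 - s ≤ ((Nb k v ∩ A).card : ℝ) := by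
  classical
  set Bad : Finset (Q n) := univ.filter (fun w => N / 2 - s ≤ ((Nb k w ∩ A).card : ℝ)) with hB
  obtain ⟨t, ht⟩ := hA v
  have hcl := closed_bound (k := k) (r := N / 2) (A := A) (S := A ∪ Bad) subset_union_left
    (by
      intro u hu
      rw [mem_union]
      right
      rw [hB, mem_filter]
      refine ⟨mem_univ _, ?_⟩
      have h1 : (Nb k u ∩ (A ∪ Bad)).card ≤ (Nb k u ∩ A).card +
          ((Nb k u).filter (fun w => N / 2 - s ≤ ((Nb k w ∩ A).card : ℝ))).card := by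
        refine le_trans (card_le_card ?_) (card_union_le _ _)
        intro x hx
        rw [mem_inter, mem_union] at hx
        rw [mem_union, mem_inter, mem_filter]
        rcases hx.2 with h2 | h2
        · exact Or.inl ⟨hx.1, h2⟩
        · rw [hB, mem_filter] at h2
          exact Or.inr ⟨hx.1, h2.2⟩
      have h2 : ((Nb k u ∩ (A ∪ Bad)).card : ℝ) ≤ (Nb k u ∩ A).card +
          ((Nb k u).filter (fun w => N / 2 - s ≤ ((Nb k w ∩ A).card : ℝ))).card := by
        exact_mod_cast h1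
      have h3 := h u
      linarith) t
  have h4 := hcl ht
  rw [mem_union, hB, mem_filter] at h4
  rcases h4 with h4 | h4
  · exact Or.inl h4
  · exact Or.inr h4.2

/-- The probability that one vertex is in the random set. -/
theorem Pr_mem (p : ℝ) (v : Q n) :
    Pr (fun _ : Q n => p) univ (fun A => v ∈ A) = p := by
  have h : Pr (fun _ : Q n => p) univ (fun A => v ∈ A) = Pr (fun _ : Q n => p) {v} (fun A => v ∈ A) := by
    apply Pr_local (subset_univ _)
    intro F _
    simp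
  rw [h]
  unfold Pr
  have : ({v} : Finset (Q n)) = insert v ∅ := rfl
  rw [this, Ex_insert _ (by simp), Ex_empty, Ex_empty]
  rw [ind_of (by simp), ind_not_of (by simp)]
  ring

/-- The bound on the probability of percolation. -/
theorem nonperc {p s : ℝ} (hn : 1 ≤ n) (hp0 : 0 ≤ p) (hp1 : p ≤ 1)
    (hs : p * deg k n + 2 * s ≤ (deg k n : ℝ) / 2) (hsn : (n : ℝ) + 1 ≤ s)
    (hβ : (2 * (k : ℝ) + 2) * Real.log ((n : ℝ) + 1) ≤
      s ^ 2 / (4 * (16 ^ k * ((n : ℝ) + 1) ^ k))) :
    prob k n ((deg k n : ℝ) / 2) p ≤ p + 2 / ((n : ℝ) + 1) ^ (k + 1) := by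
  classical
  set N : ℝ := (deg k n : ℝ) with hN
  set β : ℝ := s ^ 2 / (4 * (16 ^ k * ((n : ℝ) + 1) ^ k)) with hβdef
  have hOk := Ok_const (E := Q n) hp0 hp1
  have hn0 : (0 : ℝ) < (n : ℝ) + 1 := by positivity
  have hn1 : (1 : ℝ) ≤ n := by exact_mod_cast hn
  have hs0 : 0 < s := by linarith
  set v0 : Q n := fun _ => true
  set m : ℕ := ⌊s⌋₊ with hm
  have hms : (m : ℝ) ≤ s := Nat.floor_le hs0.le
  have hmn : (n : ℝ) ≤ m := by
    have := Nat.lt_floor_add_one s
    rw [← hm] at this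
    linarith
  have hcardw : ∀ w : Q n, ((Nb k w).card : ℝ) = N := fun w => by rw [card_Nb]
  -- decomposition
  rw [prob_eq]
  have h1 : Pr (fun _ : Q n => p) univ (fun A => Percolates k (N / 2) A) ≤
      Pr (fun _ : Q n => p) univ (fun A => v0 ∈ A ∨ ((∀ w ∈ ({v0} : Finset (Q n)),
        p * (Nb k w).card + s ≤ ((Nb k w ∩ A).card : ℝ)) ∨
        ∃ v ∈ (univ : Finset (Q n)), ∃ S ∈ powersetCard m (Nb k v),
          ∀ w ∈ S, p * (Nb k w).card + s ≤ ((Nb k w ∩ A).card : ℝ))) := by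
    apply Pr_mono hOk
    intro A _ hA
    by_cases h : ∀ v : Q n,
      (((Nb k v).filter (fun w => N / 2 - s ≤ ((Nb k w ∩ A).card : ℝ))).card : ℝ) < s
    · rcases det_low A h hA v0 with h2 | h2
      · exact Or.inl h2
      · right; left
        intro w hw
        rw [mem_singleton] at hw
        rw [hw, hcardw]
        linarith
    · right; right
      push Not at h
      obtain ⟨v, hv⟩ := h
      have h3 : m ≤ ((Nb k v).filter (fun w => N / 2 - s ≤ ((Nb k w ∩ A).card : ℝ))).card := by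
        have := hms.trans hv
        exact_mod_cast this
      obtain ⟨S, hS, hSc⟩ := exists_subset_card_eq h3
      refine ⟨v, mem_univ _, S, ?_, ?_⟩
      · rw [mem_powersetCard]
        exact ⟨hS.trans (filter_subset _ _), hSc⟩
      · intro w hw
        have := (mem_filter.1 (hS hw)).2
        rw [hcardw]
        linarith
  refine h1.trans ((Pr_or_le hOk _ _ _).trans ?_)
  rw [Pr_mem]
  have h2 := Pr_or_le hOk (univ : Finset (Q n)) (fun A => ∀ w ∈ ({v0} : Finset (Q n)),
        p * (Nb k w).card + s ≤ ((Nb k w ∩ A).card : ℝ)) (fun A =>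
        ∃ v ∈ (univ : Finset (Q n)), ∃ S ∈ powersetCard m (Nb k v),
          ∀ w ∈ S, p * (Nb k w).card + s ≤ ((Nb k w ∩ A).card : ℝ))
  have h3 := dev_up hp0 hp1 hs0.le (Z := fun w => Nb k w) (fun w => Subset.refl _) v0
    {v0} (fun w hw => by rw [mem_singleton] at hw; rw [hw, hammingDist_self]; exact Nat.zero_le k)
  rw [card_singleton, Nat.cast_one, one_mul, ← hβdef] at h3
  have h4 : ∀ v ∈ (univ : Finset (Q n)), Pr (fun _ : Q n => p) univ (fun A =>
      ∃ S ∈ powersetCard m (Nb k v),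
          ∀ w ∈ S, p * (Nb k w).card + s ≤ ((Nb k w ∩ A).card : ℝ)) ≤
      ((n : ℝ) + 1) ^ (k * m) * Real.exp (-(m * β)) := by
    intro v _
    have h5 := Pr_exists_card_le hOk (univ : Finset (Q n)) (powersetCard m (Nb k v))
      (fun S A => ∀ w ∈ S, p * (Nb k w).card + s ≤ ((Nb k w ∩ A).card : ℝ))
      (q := Real.exp (-(m * β))) (by
        intro S hS
        rw [mem_powersetCard] at hS
        have h6 := dev_up hp0 hp1 hs0.le (Z := fun w => Nb k w) (fun w => Subset.refl _) v S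
          (fun w hw => (mem_Nb.1 (hS.1 hw)).2)
        rw [hS.2, ← hβdef] at h6
        exact h6)
    refine h5.trans (mul_le_mul_of_nonneg_right ?_ (Real.exp_pos _).le)
    rw [card_powersetCard, card_Nb]
    have h7 : (deg k n).choose m ≤ ((n + 1) ^ k) ^ m :=
      (Nat.choose_le_pow _ _).trans (Nat.pow_le_pow_left (deg_le k n) m)
    rw [pow_mul]
    exact_mod_cast h7
  have h5 := Pr_exists_card_le hOk (univ : Finset (Q n)) (univ : Finset (Q n))
    (fun v A => ∃ S ∈ powersetCard m (Nb k v),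
          ∀ w ∈ S, p * (Nb k w).card + s ≤ ((Nb k w ∩ A).card : ℝ)) h4
  rw [card_Q] at h5
  -- the numerical estimates
  have hlog : 0 ≤ Real.log ((n : ℝ) + 1) := Real.log_nonneg (by linarith)
  have h6 : Real.exp (-β) ≤ 1 / ((n : ℝ) + 1) ^ (k + 1) := by
    have e1 : ((n : ℝ) + 1) ^ (k + 1) = Real.exp (((k : ℝ) + 1) * Real.log ((n : ℝ) + 1)) := by
      have : (((k : ℝ) + 1) * Real.log ((n : ℝ) + 1)) = ((k + 1 : ℕ) : ℝ) * Real.log ((n : ℝ) + 1) := by
        push_cast; ring
      rw [this, Real.exp_nat_mul, Real.exp_log hn0]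
    rw [e1, one_div, ← Real.exp_neg]
    apply Real.exp_le_exp.2
    have : ((k : ℝ) + 1) * Real.log ((n : ℝ) + 1) ≤ (2 * (k : ℝ) + 2) * Real.log ((n : ℝ) + 1) := by
      apply mul_le_mul_of_nonneg_right _ hlog
      have : (0 : ℝ) ≤ k := by positivity
      linarith
    linarith
  have h7 : ((2 ^ n : ℕ) : ℝ) * (((n : ℝ) + 1) ^ (k * m) * Real.exp (-(m * β))) ≤
      1 / ((n : ℝ) + 1) ^ (k + 1) := by
    have e1 : ((n : ℝ) + 1) ^ (k + 1) = Real.exp (((k : ℝ) + 1) * Real.log ((n : ℝ) + 1)) := by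
      have : (((k : ℝ) + 1) * Real.log ((n : ℝ) + 1)) = ((k + 1 : ℕ) : ℝ) * Real.log ((n : ℝ) + 1) := by
        push_cast; ring
      rw [this, Real.exp_nat_mul, Real.exp_log hn0]
    have e2 : ((n : ℝ) + 1) ^ (k * m) = Real.exp ((k : ℝ) * m * Real.log ((n : ℝ) + 1)) := by
      have : ((k : ℝ) * m * Real.log ((n : ℝ) + 1)) = ((k * m : ℕ) : ℝ) * Real.log ((n : ℝ) + 1) := by
        push_cast; ring
      rw [this, Real.exp_nat_mul, Real.exp_log hn0]
    have e3 : ((2 ^ n : ℕ) : ℝ) ≤ Real.exp (m * Real.log ((n : ℝ) + 1)) := by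
      push_cast
      calc (2 : ℝ) ^ n ≤ ((n : ℝ) + 1) ^ n := by
            apply pow_le_pow_left₀ (by norm_num); linarith
        _ = Real.exp (n * Real.log ((n : ℝ) + 1)) := by rw [Real.exp_nat_mul, Real.exp_log hn0]
        _ ≤ _ := Real.exp_le_exp.2 (mul_le_mul_of_nonneg_right hmn hlog)
    rw [e1, e2, one_div, ← Real.exp_neg, ← Real.exp_add]
    calc ((2 ^ n : ℕ) : ℝ) * Real.exp ((k : ℝ) * m * Real.log ((n : ℝ) + 1) + -(m * β))
        ≤ Real.exp (m * Real.log ((n : ℝ) + 1)) *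
          Real.exp ((k : ℝ) * m * Real.log ((n : ℝ) + 1) + -(m * β)) :=
          mul_le_mul_of_nonneg_right e3 (Real.exp_pos _).le
      _ = Real.exp (m * Real.log ((n : ℝ) + 1) +
          ((k : ℝ) * m * Real.log ((n : ℝ) + 1) + -(m * β))) := (Real.exp_add _ _).symm
      _ ≤ _ := by
          apply Real.exp_le_exp.2
          have hm0 : (0 : ℝ) ≤ m := by positivity
          have hm1 : (1 : ℝ) ≤ m := by linarith
          have hk0 : (0 : ℝ) ≤ k := by positivity
          have g1 : (m : ℝ) * ((2 * (k : ℝ) + 2) * Real.log ((n : ℝ) + 1)) ≤ m * β :=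
            mul_le_mul_of_nonneg_left hβ hm0
          have g2 : ((k : ℝ) + 1) * Real.log ((n : ℝ) + 1) ≤
              m * (((k : ℝ) + 1) * Real.log ((n : ℝ) + 1)) := by
            have : 0 ≤ ((k : ℝ) + 1) * Real.log ((n : ℝ) + 1) := by positivity
            nlinarith
          nlinarith
  have h8 : (2 : ℝ) / ((n : ℝ) + 1) ^ (k + 1) =
      1 / ((n : ℝ) + 1) ^ (k + 1) + 1 / ((n : ℝ) + 1) ^ (k + 1) := by ring
  rw [h8]
  linarith

end Q292.MBP
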