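import Pool.Agent.Q292.MBP.Base

/-! Private sets of neighbours. -/

set_option autoImplicit false

namespace Q292.MBP

open Finset H974

variable {n k : ℕ}

/-- The first half of the coordinates. -/
def half (n : ℕ) : Finset (Fin n) := univ.filter (fun i => i.val < n / 2)

theorem card_half (n : ℕ) : (half n).card = n / 2 := by
  unfold half
  have h : n / 2 ≤ n := Nat.div_le_self n 2
  rw [show (univ.filter (fun i : Fin n => i.val < n / 2)) =
    (univ : Finset (Fin (n / 2))).image (Fin.castLE h) from ?_]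
  · rw [card_image_of_injective _ (Fin.castLE_injective h)]
    simp
  · ext i
    rw [mem_filter, mem_image]
    constructor
    · rintro ⟨_, hi⟩
      exact ⟨⟨i.val, hi⟩, mem_univ _, rfl⟩
    · rintro ⟨j, _, rfl⟩
      exact ⟨mem_univ _, j.2⟩

theorem card_half_compl (n : ℕ) : (half n)ᶜ.card = n - n / 2 := by
  rw [card_compl, card_half, Fintype.card_fin]

/-- The vertices at distance `k` from `v` which differ from `v` only in the first half. -/
def W (k : ℕ) (v : Q n) : Finset (Q n) := (powersetCard k (half n)).image (U v)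

theorem card_W (k : ℕ) (v : Q n) : (W k v).card = (n / 2).choose k := by
  unfold W
  rw [card_image_of_injective _ (U_inj v), card_powersetCard, card_half]

theorem mem_W {v w : Q n} : w ∈ W k v ↔ D v w ⊆ half n ∧ (D v w).card = k := by
  unfold W
  rw [mem_image]
  constructor
  · rintro ⟨a, ha, rfl⟩
    rw [D_U]
    exact mem_powersetCard.1 ha
  · intro h
    exact ⟨D v w, mem_powersetCard.2 h, U_D v w⟩

/-- The private neighbours of `w`. -/
def T (k : ℕ) (v w : Q n) : Finset (Q n) :=
  (powersetCard k (half n)ᶜ).image (fun b => U v (D v w ∪ b))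

theorem mem_T {v w x : Q n} (hw : w ∈ W k v) :
    x ∈ T k v w ↔ D v x ∩ half n = D v w ∧ (D v x \ half n).card = k := by
  have hw' := (mem_W.1 hw).1
  unfold T
  rw [mem_image]
  constructor
  · rintro ⟨b, hb, rfl⟩
    rw [D_U]
    obtain ⟨hb1, hb2⟩ := mem_powersetCard.1 hb
    have e1 : (D v w ∪ b) ∩ half n = D v w := by
      ext i
      rw [mem_inter, mem_union]
      constructor
      · rintro ⟨h | h, h2⟩
        · exact h
        · exact absurd h2 (mem_compl.1 (hb1 h))
      · intro h
        exact ⟨Or.inl h, hw' h⟩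
    have e2 : (D v w ∪ b) \ half n = b := by
      ext i
      rw [mem_sdiff, mem_union]
      constructor
      · rintro ⟨h | h, h2⟩
        · exact absurd (hw' h) h2
        · exact h
      · intro h
        exact ⟨Or.inr h, mem_compl.1 (hb1 h)⟩
    rw [e1, e2]
    exact ⟨rfl, hb2⟩
  · rintro ⟨h1, h2⟩
    refine ⟨D v x \ half n, ?_, ?_⟩
    · rw [mem_powersetCard]
      refine ⟨?_, h2⟩
      intro i hi
      exact mem_compl.2 (mem_sdiff.1 hi).2
    · show U v (D v w ∪ (D v x \ half n)) = x
      have : D v w ∪ (D v x \ half n) = D v x := by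
        rw [← h1]
        ext i
        simp only [mem_union, mem_inter, mem_sdiff]
        tauto
      rw [this, U_D]

theorem card_T {v w : Q n} (hw : w ∈ W k v) : (T k v w).card = (n - n / 2).choose k := by
  have hw' := (mem_W.1 hw).1
  unfold T
  rw [card_image_of_injOn, card_powersetCard, card_half_compl]
  intro b hb c hc h
  have h1 : D v w ∪ b = D v w ∪ c := U_inj v h
  rw [mem_coe, mem_powersetCard] at hb hc
  have : ∀ d : Finset (Fin n), d ⊆ (half n)ᶜ → (D v w ∪ d) \ half n = d := by
    intro d hd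
    ext i
    rw [mem_sdiff, mem_union]
    constructor
    · rintro ⟨h | h, h2⟩
      · exact absurd (hw' h) h2
      · exact h
    · intro h
      exact ⟨Or.inr h, mem_compl.1 (hd h)⟩
  rw [← this b hb.1, ← this c hc.1, h1]

theorem W_sub (hk : 1 ≤ k) (v : Q n) : W k v ⊆ Nb k v := by
  intro w hw
  rw [mem_Nb, ← card_D, (mem_W.1 hw).2]
  exact ⟨hk, le_refl k⟩

/-- The distance from a point of `T k v w` to a point of `W k v`. -/
theorem dist_T {v w w' x : Q n} (hw : w ∈ W k v) (hw' : w' ∈ W k v) (hx : x ∈ T k v w) :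
    hammingDist x w' = hammingDist w w' + k := by
  obtain ⟨h1, h2⟩ := (mem_T hw).1 hx
  have hs' := (mem_W.1 hw').1
  rw [dist_eq v x w', dist_eq v w w']
  have e : symmDiff (D v x) (D v w') = symmDiff (D v w) (D v w') ∪ (D v x \ half n) := by
    rw [← h1]
    ext i
    simp only [mem_symmDiff, mem_union, mem_inter, mem_sdiff]
    have := @hs' i
    tauto
  rw [e, card_union_of_disjoint, h2]
  rw [disjoint_left]
  intro i hi hi'
  have h3 := (mem_sdiff.1 hi').2
  rw [mem_symmDiff] at hi
  have hs := (mem_W.1 hw).1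
  rcases hi with hi | hi
  · exact h3 (hs hi.1)
  · exact h3 (hs' hi.1)

theorem T_sub (hk : 1 ≤ k) {v w : Q n} (hw : w ∈ W k v) : T k v w ⊆ Nb k w := by
  intro x hx
  rw [mem_Nb, dist_T hw hw hx, hammingDist_self]
  omega

theorem T_not {v w w' x : Q n} (hw : w ∈ W k v) (hw' : w' ∈ W k v) (hne : w ≠ w')
    (hx : x ∈ T k v w) : x ∉ Nb k w' := by
  rw [mem_Nb, dist_T hw hw' hx]
  have : 0 < hammingDist w w' := hammingDist_pos.2 hne
  omega

theorem T_disj {v w w' : Q n} (hk : 1 ≤ k) (hw : w ∈ W k v) (hw' : w' ∈ W k v) (hne : w ≠ w') :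
    Disjoint (T k v w) (T k v w') := by
  rw [disjoint_left]
  intro x hx hx'
  exact T_not hw hw' hne hx (T_sub hk hw' hx')

/-- All private neighbours. -/
def P (k : ℕ) (v : Q n) : Finset (Q n) := (W k v).biUnion (T k v)

theorem W_not_P (hk : 1 ≤ k) {v w : Q n} (hw : w ∈ W k v) : w ∉ P k v := by
  unfold P
  rw [mem_biUnion]
  rintro ⟨w', hw', h⟩
  have := ((mem_T hw').1 h).2
  have h2 : D v w \ half n = ∅ := by
    rw [sdiff_eq_empty_iff_subset]
    exact (mem_W.1 hw).1
  rw [h2, card_empty] at this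
  omega

/-- The non-private neighbours of `w`. -/
def Z (k : ℕ) (v w : Q n) : Finset (Q n) := Nb k w \ T k v w

theorem Z_sub (k : ℕ) (v w : Q n) : Z k v w ⊆ Nb k w := sdiff_subset

theorem Z_not_P {v w x : Q n} (hw : w ∈ W k v) (hx : x ∈ Z k v w) : x ∉ P k v := by
  unfold P
  rw [mem_biUnion]
  rintro ⟨w', hw', h⟩
  unfold Z at hx
  rw [mem_sdiff] at hx
  by_cases hne : w' = w
  · rw [hne] at h
    exact hx.2 h
  · exact T_not hw' hw hne h hx.1

theorem card_Z_add (hk : 1 ≤ k) {v w : Q n} (hw : w ∈ W k v) (A : Finset (Q n)) :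
    (Nb k w ∩ A).card = (Z k v w ∩ A).card + (A ∩ T k v w).card := by
  rw [← card_union_of_disjoint]
  · congr 1
    ext x
    have := @T_sub n k hk v w hw x
    unfold Z
    simp only [mem_inter, mem_union, mem_sdiff]
    tauto
  · rw [disjoint_left]
    intro x hx hx'
    unfold Z at hx
    rw [mem_inter, mem_sdiff] at hx
    exact hx.1.2 (mem_inter.1 hx').2

theorem card_Z_add' (hk : 1 ≤ k) {v w : Q n} (hw : w ∈ W k v) :
    deg k n = (Z k v w).card + (T k v w).card := by
  have := card_Z_add hk hw univ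
  rw [inter_univ, inter_univ, univ_inter, card_Nb] at this
  exact this

end Q292.MBP
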