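import Pool.Agent.H974R2.Basic

/-! Tail bounds for the random subset of a finite set. -/

set_option autoImplicit false

namespace Q292.MBP

open Finset H974

variable {E : Type*} [DecidableEq E]

/-- Markov bound. -/
theorem markov {p : E → ℝ} (hp : Ok p) {S : Finset E} {A : Finset E → Prop}
    {g : Finset E → ℝ} (hg : ∀ F, F ⊆ S → 0 ≤ g F) (hA : ∀ F, F ⊆ S → A F → 1 ≤ g F) :
    Pr p S A ≤ Ex p S g := by
  unfold Pr
  apply Ex_mono hp
  intro F hF
  by_cases h : A F
  · rw [ind_of h]; exact hA F hF h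
  · rw [ind_not_of h]; exact hg F hF

/-- The exponential moment. -/
theorem Ex_exp (p : E → ℝ) (S : Finset E) (c : E → ℝ) :
    Ex p S (fun F => Real.exp (∑ e ∈ F, c e)) =
      ∏ e ∈ S, (p e * Real.exp (c e) + (1 - p e)) := by
  induction S using Finset.induction_on with
  | empty => simp [Ex_empty]
  | insert a S ha ih =>
    rw [Ex_insert p ha, Finset.prod_insert ha, ih]
    have : Ex p S (fun F => Real.exp (∑ e ∈ insert a F, c e)) =
        Real.exp (c a) * Ex p S (fun F => Real.exp (∑ e ∈ F, c e)) := by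
      rw [← Ex_mul_left]
      apply Ex_congr
      intro F hF
      rw [Finset.sum_insert (fun h => ha (hF h)), Real.exp_add]
    rw [this, ih]
    ring

/-- The Bernoulli variable is sub-Gaussian. -/
theorem bern_exp {p : ℝ} (h0 : 0 ≤ p) (h1 : p ≤ 1) (t : ℝ) :
    p * Real.exp t + (1 - p) ≤ Real.exp (t * p + t ^ 2 / 2) := by
  have hq : 0 ≤ 1 - p := by linarith
  -- Jensen
  have hj : Real.exp (-(t * p)) ≤ p * Real.exp (-t) + (1 - p) := by
    have hc := convexOn_exp.2 (Set.mem_univ (-t)) (Set.mem_univ (0 : ℝ)) h0 hq (by ring)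
    simp only [smul_eq_mul, mul_zero, add_zero, Real.exp_zero, mul_one] at hc
    have : p * -t = -(t * p) := by ring
    rw [this] at hc
    exact hc
  have hpos : 0 ≤ p * Real.exp t + (1 - p) := by positivity
  have h2 : (p * Real.exp t + (1 - p)) * Real.exp (-(t * p)) ≤
      (p * Real.exp t + (1 - p)) * (p * Real.exp (-t) + (1 - p)) :=
    mul_le_mul_of_nonneg_left hj hpos
  have h3 : (p * Real.exp t + (1 - p)) * (p * Real.exp (-t) + (1 - p)) =
      1 + 2 * (p * (1 - p)) * (Real.cosh t - 1) := by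
    rw [Real.cosh_eq]
    have : Real.exp t * Real.exp (-t) = 1 := by rw [← Real.exp_add]; simp
    have e : p * Real.exp t * (p * Real.exp (-t)) = p ^ 2 := by
      calc p * Real.exp t * (p * Real.exp (-t)) = p ^ 2 * (Real.exp t * Real.exp (-t)) := by ring
        _ = p ^ 2 := by rw [this, mul_one]
    calc (p * Real.exp t + (1 - p)) * (p * Real.exp (-t) + (1 - p))
        = p * Real.exp t * (p * Real.exp (-t)) + p * (1 - p) * (Real.exp t + Real.exp (-t))
          + (1 - p) ^ 2 := by ring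
      _ = p ^ 2 + p * (1 - p) * (Real.exp t + Real.exp (-t)) + (1 - p) ^ 2 := by rw [e]
      _ = _ := by ring
  have hc1 : 1 ≤ Real.cosh t := Real.one_le_cosh t
  have h4 : 1 + 2 * (p * (1 - p)) * (Real.cosh t - 1) ≤ Real.cosh t := by
    have : 2 * (p * (1 - p)) ≤ 1 := by nlinarith [sq_nonneg (p - 1 / 2)]
    nlinarith
  have h5 := Real.cosh_le_exp_half_sq t
  have h6 : (p * Real.exp t + (1 - p)) * Real.exp (-(t * p)) ≤ Real.exp (t ^ 2 / 2) := by
    linarith
  have h7 : p * Real.exp t + (1 - p) =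
      ((p * Real.exp t + (1 - p)) * Real.exp (-(t * p))) * Real.exp (t * p) := by
    rw [mul_assoc, ← Real.exp_add]; simp
  rw [h7, add_comm (t * p), Real.exp_add]
  exact mul_le_mul_of_nonneg_right h6 (Real.exp_pos _).le

/-- Hoeffding's inequality (with a weaker constant). -/
theorem hoeff {p : E → ℝ} (hp : Ok p) (S : Finset E) (c : E → ℝ) {K l : ℝ} (hK : 0 < K)
    (hc : ∑ e ∈ S, c e ^ 2 ≤ K) :
    Pr p S (fun F => l ≤ ∑ e ∈ F, c e - ∑ e ∈ S, c e * p e) ≤
      Real.exp (-(l ^ 2 / (2 * K))) ∨ l < 0 := by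
  by_cases hl : l < 0
  · exact Or.inr hl
  left
  push Not at hl
  set θ : ℝ := l / K with hθ
  have hθ0 : 0 ≤ θ := div_nonneg hl hK.le
  have h1 : Pr p S (fun F => l ≤ ∑ e ∈ F, c e - ∑ e ∈ S, c e * p e) ≤
      Ex p S (fun F => Real.exp (-(θ * l) - θ * ∑ e ∈ S, c e * p e) *
        Real.exp (∑ e ∈ F, θ * c e)) := by
    apply markov hp
    · intro F _; positivity
    · intro F _ h
      rw [← Real.exp_add]
      apply Real.one_le_exp
      rw [← Finset.mul_sum]
      nlinarith [mul_le_mul_of_nonneg_left h hθ0]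
  refine h1.trans ?_
  rw [Ex_mul_left, Ex_exp]
  have h2 : ∏ e ∈ S, (p e * Real.exp (θ * c e) + (1 - p e)) ≤
      ∏ e ∈ S, Real.exp (θ * c e * p e + (θ * c e) ^ 2 / 2) := by
    apply Finset.prod_le_prod
    · intro e _
      have := hp e
      have h3 : 0 ≤ 1 - p e := by linarith [this.2]
      have := this.1
      positivity
    · intro e _
      exact bern_exp (hp e).1 (hp e).2 _
  calc Real.exp (-(θ * l) - θ * ∑ e ∈ S, c e * p e) *
        ∏ e ∈ S, (p e * Real.exp (θ * c e) + (1 - p e))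
      ≤ Real.exp (-(θ * l) - θ * ∑ e ∈ S, c e * p e) *
        ∏ e ∈ S, Real.exp (θ * c e * p e + (θ * c e) ^ 2 / 2) :=
        mul_le_mul_of_nonneg_left h2 (Real.exp_pos _).le
    _ = Real.exp (-(θ * l) + θ ^ 2 / 2 * ∑ e ∈ S, c e ^ 2) := by
        rw [← Real.exp_sum, ← Real.exp_add]
        congr 1
        rw [Finset.sum_add_distrib, Finset.mul_sum, Finset.mul_sum]
        have e1 : ∑ e ∈ S, θ * c e * p e = ∑ e ∈ S, θ * (c e * p e) := by
          apply Finset.sum_congr rfl; intros; ring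
        have e2 : ∑ e ∈ S, (θ * c e) ^ 2 / 2 = ∑ e ∈ S, θ ^ 2 / 2 * c e ^ 2 := by
          apply Finset.sum_congr rfl; intros; ring
        rw [e1, e2]
        ring
    _ ≤ Real.exp (-(l ^ 2 / (2 * K))) := by
        apply Real.exp_le_exp.2
        have h3 : θ ^ 2 / 2 * ∑ e ∈ S, c e ^ 2 ≤ θ ^ 2 / 2 * K :=
          mul_le_mul_of_nonneg_left hc (by positivity)
        have h4 : -(θ * l) + θ ^ 2 / 2 * K = -(l ^ 2 / (2 * K)) := by
          rw [hθ]; field_simp; ring
        linarith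

/-- Hoeffding's inequality, upper tail. -/
theorem hoeff_up {p : E → ℝ} (hp : Ok p) (S : Finset E) (c : E → ℝ) {K l : ℝ} (hK : 0 < K)
    (hc : ∑ e ∈ S, c e ^ 2 ≤ K) (hl : 0 ≤ l) {A : Finset E → Prop}
    (hA : ∀ F, F ⊆ S → A F → l ≤ ∑ e ∈ F, c e - ∑ e ∈ S, c e * p e) :
    Pr p S A ≤ Real.exp (-(l ^ 2 / (2 * K))) := by
  rcases hoeff hp S c (l := l) hK hc with h | h
  · exact (Pr_mono hp hA).trans h
  · linarith

/-- Hoeffding's inequality, lower tail. -/
theorem hoeff_low {p : E → ℝ} (hp : Ok p) (S : Finset E) (c : E → ℝ) {K l : ℝ} (hK : 0 < K)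
    (hc : ∑ e ∈ S, c e ^ 2 ≤ K) (hl : 0 ≤ l) {A : Finset E → Prop}
    (hA : ∀ F, F ⊆ S → A F → l ≤ ∑ e ∈ S, c e * p e - ∑ e ∈ F, c e) :
    Pr p S A ≤ Real.exp (-(l ^ 2 / (2 * K))) := by
  apply hoeff_up hp S (fun e => - c e) hK
  · simpa using hc
  · exact hl
  · intro F hF h
    have := hA F hF h
    simp only [Finset.sum_neg_distrib, neg_mul]
    linarith

/-- Union bound. -/
theorem Pr_exists_le {p : E → ℝ} (hp : Ok p) (S : Finset E) {ι : Type*}
    (s : Finset ι) (A : ι → Finset E → Prop) :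
    Pr p S (fun F => ∃ i ∈ s, A i F) ≤ ∑ i ∈ s, Pr p S (A i) := by
  classical
  induction s using Finset.induction_on with
  | empty =>
    have : Pr p S (fun F => ∃ i ∈ (∅ : Finset ι), A i F) = 0 := by
      unfold Pr
      rw [Ex_congr (g := fun _ => 0) (fun F _ => ind_not_of (by simp)), Ex_const]
    rw [this]; simp
  | insert a s ha ih =>
    rw [Finset.sum_insert ha]
    have h1 : Pr p S (fun F => ∃ i ∈ insert a s, A i F) ≤
        Pr p S (fun F => A a F ∨ ∃ i ∈ s, A i F) := by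
      apply Pr_mono hp
      rintro F _ ⟨i, hi, h⟩
      rcases Finset.mem_insert.1 hi with rfl | hi
      · exact Or.inl h
      · exact Or.inr ⟨i, hi, h⟩
    have h2 := Pr_or_le hp S (A a) (fun F => ∃ i ∈ s, A i F)
    linarith

/-- Union bound over the subsets of given size. -/
theorem Pr_exists_card_le {p : E → ℝ} (hp : Ok p) (S : Finset E) {ι : Type*}
    (s : Finset ι) (A : ι → Finset E → Prop) {q : ℝ} (hA : ∀ i ∈ s, Pr p S (A i) ≤ q) :
    Pr p S (fun F => ∃ i ∈ s, A i F) ≤ s.card * q := by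
  refine (Pr_exists_le hp S s A).trans ?_
  calc ∑ i ∈ s, Pr p S (A i) ≤ ∑ _i ∈ s, q := Finset.sum_le_sum hA
    _ = s.card * q := by rw [Finset.sum_const, nsmul_eq_mul]

end Q292.MBP
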